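import Pool.Agent.Helper83_S1S3.Hom

/-!
# Tools for the homology modules: homotopy equivalences, slabs, disjoint unions
-/

set_option autoImplicit false
set_option linter.unusedSectionVars false

open scoped Manifold ContDiff Topology unitInterval
open CategoryTheory Set

noncomputable section

namespace Pool.Agent.S1S3.H65

theorem hm_comp (hF : FunctStatement) (i : ℕ) {X Y Z : Type} [TopologicalSpace X]
    [TopologicalSpace Y] [TopologicalSpace Z] (f : C(X, Y)) (g : C(Y, Z)) (x : HH i X) :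
    Hm i (g.comp f) x = Hm i g (Hm i f x) := by
  rw [hF.comp]
  rfl

theorem hm_id (hF : FunctStatement) (i : ℕ) {X : Type} [TopologicalSpace X] (x : HH i X) :
    Hm i (ContinuousMap.id X) x = x := by
  rw [hF.id]
  rfl

theorem bij_of_inv (hF : FunctStatement) (i : ℕ) {X Y : Type} [TopologicalSpace X]
    [TopologicalSpace Y] (k : C(X, Y)) (r : C(Y, X))
    (h1 : (r.comp k).Homotopic (ContinuousMap.id X))
    (h2 : (k.comp r).Homotopic (ContinuousMap.id Y)) : Function.Bijective (Hm i k) := by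
  have e1 := hF.homotopy i _ _ _ _ h1
  have e2 := hF.homotopy i _ _ _ _ h2
  rw [hF.comp, hF.id] at e1 e2
  constructor
  · intro x y hxy
    have hx := DFunLike.congr_fun e1 x
    have hy := DFunLike.congr_fun e1 y
    simp only [AddMonoidHom.coe_comp, Function.comp_apply, AddMonoidHom.id_apply] at hx hy
    rw [← hx, ← hy, hxy]
  · intro y
    have hy := DFunLike.congr_fun e2 y
    simp only [AddMonoidHom.coe_comp, Function.comp_apply, AddMonoidHom.id_apply] at hy
    exact ⟨_, hy⟩

theorem bij_of_homeo (hF : FunctStatement) (i : ℕ) {X Y : Type} [TopologicalSpace X]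
    [TopologicalSpace Y] (e : X ≃ₜ Y) : Function.Bijective (Hm i (e : C(X, Y))) := by
  refine bij_of_inv hF i _ (e.symm : C(Y, X)) ?_ ?_
  · rw [show (e.symm : C(Y, X)).comp (e : C(X, Y)) = ContinuousMap.id X by ext x; simp]
  · rw [show (e : C(X, Y)).comp (e.symm : C(Y, X)) = ContinuousMap.id Y by ext x; simp]

/-- the inclusion of a slice of a slab is a homotopy equivalence -/
theorem slab_bij (hF : FunctStatement) {Y Z : Type} [TopologicalSpace Y] [TopologicalSpace Z]
    {a b c : ℝ} (hc : c ∈ Ioo a b) (f : C(Ioo a b × Z, Y)) (hf : Topology.IsEmbedding f)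
    (S : Set Y) (hS : range f = S) (k : C(Z, S)) (hk : ∀ z, (k z : Y) = f (⟨c, hc⟩, z)) (i : ℕ) :
    Function.Bijective (Hm i k) := by
  subst hS
  let e : (Ioo a b × Z) ≃ₜ range f := hf.toHomeomorph
  have he : ∀ q, (e q : Y) = f q := fun q => rfl
  let r : C(range f, Z) := ⟨fun y => (e.symm y).2, by fun_prop⟩
  have hke : ∀ z, k z = e (⟨c, hc⟩, z) := fun z => Subtype.ext (by rw [hk, he])
  have hmem : ∀ (t : I) (x : Ioo a b), (1 - (t : ℝ)) * c + t * x ∈ Ioo a b := by
    intro t x
    exact convex_Ioo a b hc x.2 (by linarith [t.2.2]) t.2.1 (by ring)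
  refine bij_of_inv hF i k r ?_ ?_
  · have h1 : r.comp k = ContinuousMap.id Z := by
      ext z
      change (e.symm (k z)).2 = z
      rw [hke, Homeomorph.symm_apply_apply]
    rw [h1]
  · refine ⟨⟨⟨fun p => e (⟨(1 - (p.1 : ℝ)) * c + p.1 * (e.symm p.2).1.1,
        hmem p.1 (e.symm p.2).1⟩, (e.symm p.2).2), ?_⟩, ?_, ?_⟩⟩
    · apply e.continuous.comp
      refine Continuous.prodMk (Continuous.subtype_mk ?_ _) ?_
      · fun_prop
      · fun_prop
    · intro y
      change _ = k (e.symm y).2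
      rw [hke]
      simp
    · intro y
      change _ = y
      have h3 : ∀ q : Ioo a b × Z, e q = y → ∀ hq : (1 - ((1 : I) : ℝ)) * c + ((1 : I) : ℝ) * q.1.1 ∈
          Ioo a b, e (⟨(1 - ((1 : I) : ℝ)) * c + ((1 : I) : ℝ) * q.1.1, hq⟩, q.2) = y := by
        rintro ⟨q1, q2⟩ h hq
        rw [← h]
        congr 2
        apply Subtype.ext
        simp
      exact h3 (e.symm y) (e.apply_symm_apply y) _

/-- the homology of a disjoint union -/
theorem disj_bij (h0 : H0Statement) (hMV : MVStatement) {X : Type}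
    [TopologicalSpace X] (A B : Set X) (hA : IsOpen A) (hB : IsOpen B) (hU : A ∪ B = univ)
    (hd : A ∩ B = ∅) (i : ℕ) : Function.Bijective (mvDiff A B i) := by
  obtain ⟨δ, h1, -⟩ := hMV
  obtain ⟨e1, e2, e3, e4⟩ := h1 X A B hA hB hU
  have hemp : ∀ i, Subsingleton (HH i ↥(A ∩ B)) := by
    intro i
    have : IsEmpty ↥(A ∩ B) := by rw [hd]; infer_instance
    exact h0.empty _ i
  constructor
  · rw [injective_iff_map_eq_zero]
    intro q hq
    obtain ⟨p, hp⟩ := (e1 i q).1 hq
    have := hemp i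
    rw [← hp, Subsingleton.elim p 0, map_zero]
  · rcases i with _ | i
    · exact e4
    · intro x
      have := hemp i
      exact (e2 i x).1 (Subsingleton.elim _ _)

/-- the homology of a disjoint union, with models of the two parts -/
theorem disj_bij' (hF : FunctStatement) (h0 : H0Statement) (hMV : MVStatement) {X P Q : Type}
    [TopologicalSpace X] [TopologicalSpace P] [TopologicalSpace Q] (A B : Set X) (hA : IsOpen A)
    (hB : IsOpen B) (hU : A ∪ B = univ) (hd : A ∩ B = ∅) (i : ℕ) (a : C(P, A)) (b : C(Q, B))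
    (ha : Function.Bijective (Hm i a)) (hb : Function.Bijective (Hm i b)) :
    Function.Bijective ((Hm i ((valC A).comp a)).coprod (Hm i ((valC B).comp b))) := by
  obtain ⟨h1, h2⟩ := disj_bij h0 hMV A B hA hB hU hd i
  have key : ∀ x y, (Hm i ((valC A).comp a)).coprod (Hm i ((valC B).comp b)) (x, y) =
      mvDiff A B i (Hm i a x, -Hm i b y) := by
    intro x y
    simp only [mvDiff, AddMonoidHom.coprod_apply, hm_comp hF, AddMonoidHom.neg_apply, map_neg,
      neg_neg]
  constructor
  · rw [injective_iff_map_eq_zero]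
    rintro ⟨x, y⟩ hxy
    rw [key] at hxy
    have h3 := (injective_iff_map_eq_zero _).1 h1 _ hxy
    rw [Prod.mk_eq_zero] at h3
    have hx : x = 0 := ha.1 (by rw [h3.1, map_zero])
    have hy : y = 0 := hb.1 (by rw [neg_eq_zero.1 h3.2, map_zero])
    rw [hx, hy]
    rfl
  · intro x
    obtain ⟨⟨u, v⟩, huv⟩ := h2 x
    obtain ⟨u', hu'⟩ := ha.2 u
    obtain ⟨v', hv'⟩ := hb.2 (-v)
    refine ⟨(u', v'), ?_⟩
    rw [key, hu', hv', neg_neg, huv]

/-- homotopy in a subset along the first coordinate -/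
theorem homot {X Z W : Type} [TopologicalSpace X] [TopologicalSpace Z] [TopologicalSpace W]
    (φ : C(ℝ × Z, X)) (h : C(W, Z)) (S : Set X) (a b : ℝ)
    (hS : ∀ θ ∈ uIcc a b, ∀ w, φ (θ, h w) ∈ S) (f₀ f₁ : C(W, S))
    (h₀ : ∀ z, (f₀ z : X) = φ (a, h z)) (h₁ : ∀ z, (f₁ z : X) = φ (b, h z)) :
    f₀.Homotopic f₁ := by
  have hmem : ∀ t : I, (1 - (t : ℝ)) * a + t * b ∈ uIcc a b := by
    intro t
    exact convex_uIcc a b left_mem_uIcc right_mem_uIcc (by linarith [t.2.2]) t.2.1 (by ring)
  refine ⟨⟨⟨fun p => ⟨φ ((1 - (p.1 : ℝ)) * a + p.1 * b, h p.2), hS _ (hmem _) _⟩, ?_⟩,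
    ?_, ?_⟩⟩
  · refine Continuous.subtype_mk ?_ _
    fun_prop
  · intro w
    apply Subtype.ext
    rw [h₀]
    simp
  · intro w
    apply Subtype.ext
    rw [h₁]
    simp

end Pool.Agent.S1S3.H65
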