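import Pool.Agent.Helper65_S1S3.Basic
import Pool.Agent.Helper83_S1S3.Stmts

/-!
# Caps around the punctures
-/

set_option autoImplicit false
set_option linter.unusedSectionVars false

open scoped Manifold ContDiff Topology unitInterval
open CategoryTheory Set

noncomputable section

namespace Pool.Agent.S1S3.H65

variable {k m : ℕ}

/-- the tail -/
def tl (x : Eu (k + 1)) : Eu k := WithLp.toLp 2 fun i => x i.succ

theorem tl_apply (x : Eu (k + 1)) (i : Fin k) : tl x i = x i.succ := rfl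

@[fun_prop]
theorem continuous_tl : Continuous (tl : Eu (k + 1) → Eu k) := by
  unfold tl
  fun_prop

theorem norm_sq_tl (x : Eu (k + 1)) : ‖x‖ ^ 2 = x 0 ^ 2 + ‖tl x‖ ^ 2 := by
  rw [EuclideanSpace.norm_sq_eq, EuclideanSpace.norm_sq_eq, Fin.sum_univ_succ]
  simp only [Real.norm_eq_abs, sq_abs, tl_apply]

theorem tl_sg (b : Eu k) : tl (sg b) = b := by
  ext i
  rw [tl_apply, sg_succ]

theorem sg_tl {x : Eu (k + 1)} (hx : ‖x‖ = 1) (h0 : 0 ≤ x 0) : sg (tl x) = x := by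
  ext i
  refine Fin.cases ?_ (fun i => ?_) i
  · rw [sg_zero]
    have h := norm_sq_tl x
    rw [hx, one_pow] at h
    rw [show 1 - ‖tl x‖ ^ 2 = x 0 ^ 2 by linarith, Real.sqrt_sq h0]
  · rw [sg_succ, tl_apply]

/-- the cap around the point `core ζ` -/
def cap (m : ℕ) (ζ : Circle) : Set (Sn (m + 2)) :=
  {x | 0 < (rot ((ζ⁻¹ : Circle) : ℂ) (x : Eu (m + 3))) 0 ∧
    ‖tl (rot ((ζ⁻¹ : Circle) : ℂ) (x : Eu (m + 3)))‖ < 1 / 2}

theorem continuous_rotc (ζ : Circle) :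
    Continuous fun x : Sn (m + 2) => rot (ζ : ℂ) (x : Eu (m + 3)) := by
  fun_prop

theorem isOpen_cap (ζ : Circle) : IsOpen (cap m ζ) := by
  have h1 : Continuous fun x : Sn (m + 2) => (rot ((ζ⁻¹ : Circle) : ℂ) (x : Eu (m + 3))) 0 :=
    (PiLp.continuous_apply 2 _ 0).comp (continuous_rotc _)
  have h2 : Continuous fun x : Sn (m + 2) =>
      ‖tl (rot ((ζ⁻¹ : Circle) : ℂ) (x : Eu (m + 3)))‖ :=
    (continuous_tl.comp (continuous_rotc _)).norm
  exact (isOpen_lt continuous_const h1).inter (isOpen_lt h2 continuous_const)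

theorem tubeS_mem_cap (ζ : Circle) (b : Eu (m + 2)) (hb : ‖b‖ < 1 / 2) :
    tubeS ζ b (by linarith) ∈ cap m ζ := by
  have h : rot ((ζ⁻¹ : Circle) : ℂ) ((tubeS ζ b (by linarith) : Sn (m + 2)) : Eu (m + 3)) =
      sg b := by
    change rot ((ζ⁻¹ : Circle) : ℂ) (rot (ζ : ℂ) (sg b)) = sg b
    rw [rot_inv_rot]
  constructor
  · rw [h, sg_zero]
    apply Real.sqrt_pos.2
    nlinarith [norm_nonneg b]
  · rw [h, tl_sg]
    exact hb

theorem tubeV_tl (ζ : Circle) (x : Sn (m + 2)) (hx : x ∈ cap m ζ) :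
    tubeV ζ (tl (rot ((ζ⁻¹ : Circle) : ℂ) (x : Eu (m + 3)))) = (x : Eu (m + 3)) := by
  unfold tubeV
  rw [sg_tl _ hx.1.le, rot_rot_inv]
  rw [norm_rot_circle, norm_eq_of_mem_sphere]

/-- the cap is a ball -/
def capHomeo (m : ℕ) (ζ : Circle) : Metric.ball (0 : Eu (m + 2)) (1 / 2) ≃ₜ cap m ζ where
  toFun b := ⟨tubeS ζ b.1 (by have := b.2; rw [mem_ball_zero_iff] at this; linarith),
    tubeS_mem_cap ζ b.1 (mem_ball_zero_iff.1 b.2)⟩
  invFun x := ⟨tl (rot ((ζ⁻¹ : Circle) : ℂ) (x.1 : Eu (m + 3))), mem_ball_zero_iff.2 x.2.2⟩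
  left_inv b := by
    apply Subtype.ext
    change tl (rot ((ζ⁻¹ : Circle) : ℂ) (rot (ζ : ℂ) (sg b.1))) = b.1
    rw [rot_inv_rot, tl_sg]
  right_inv x := Subtype.ext (Subtype.ext (tubeV_tl ζ x.1 x.2))
  continuous_toFun := by
    refine Continuous.subtype_mk (Continuous.subtype_mk ?_ _) _
    exact cont_tubeV continuous_const continuous_subtype_val
  continuous_invFun := by
    refine Continuous.subtype_mk ?_ _
    exact continuous_tl.comp ((continuous_rotc _).comp continuous_subtype_val)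

theorem contractible_cap (ζ : Circle) : ContractibleSpace (cap m ζ) := by
  have : ContractibleSpace (Metric.ball (0 : Eu (m + 2)) (1 / 2)) :=
    Metric.contractibleSpace_ball (by norm_num)
  exact (capHomeo m ζ).symm.contractibleSpace

theorem norm_polar (q : Ioo (0 : ℝ) (1 / 2) × Sn (m + 1)) :
    ‖(q.1 : ℝ) • (q.2 : Eu (m + 2))‖ = q.1 := by
  rw [norm_smul, norm_eq_of_mem_sphere, mul_one, Real.norm_eq_abs, abs_of_pos q.1.2.1]

/-- polar coordinates around the puncture -/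
def polar (m : ℕ) (ζ : Circle) : C(Ioo (0 : ℝ) (1 / 2) × Sn (m + 1), Sn (m + 2)) where
  toFun q := tubeS ζ ((q.1 : ℝ) • (q.2 : Eu (m + 2))) (by
    rw [norm_polar]
    linarith [q.1.2.2])
  continuous_toFun := by
    refine Continuous.subtype_mk ?_ _
    exact cont_tubeV continuous_const (by fun_prop)

theorem polar_mem (ζ : Circle) (q : Ioo (0 : ℝ) (1 / 2) × Sn (m + 1)) :
    polar m ζ q ∈ cap m ζ := by
  apply tubeS_mem_cap
  rw [norm_polar]
  exact q.1.2.2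

theorem polar_tl (ζ : Circle) (q : Ioo (0 : ℝ) (1 / 2) × Sn (m + 1)) :
    tl (rot ((ζ⁻¹ : Circle) : ℂ) (polar m ζ q : Eu (m + 3))) =
      (q.1 : ℝ) • (q.2 : Eu (m + 2)) := by
  change tl (rot ((ζ⁻¹ : Circle) : ℂ) (rot (ζ : ℂ) (sg _))) = _
  rw [rot_inv_rot, tl_sg]

theorem isEmbedding_polar (ζ : Circle) : Topology.IsEmbedding (polar m ζ) := by
  refine Topology.IsEmbedding.of_comp (polar m ζ).continuous
    (g := fun x : Sn (m + 2) => tl (rot ((ζ⁻¹ : Circle) : ℂ) (x : Eu (m + 3)))) ?_ ?_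
  · exact continuous_tl.comp (continuous_rotc _)
  · have h1 : (fun x : Sn (m + 2) => tl (rot ((ζ⁻¹ : Circle) : ℂ) (x : Eu (m + 3)))) ∘
        polar m ζ = fun q => (q.1 : ℝ) • (q.2 : Eu (m + 2)) := by
      funext q
      exact polar_tl ζ q
    rw [h1]
    have h2 : Topology.IsEmbedding (fun q : Sn (m + 1) × Ioi (0 : ℝ) =>
        (q.2 : ℝ) • (q.1 : Eu (m + 2))) := by
      have h3 := Topology.IsEmbedding.subtypeVal.comp
        (homeomorphUnitSphereProd (Eu (m + 2))).symm.isEmbedding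
      convert! h3 using 1
    have h3 : Topology.IsEmbedding (fun q : Ioo (0 : ℝ) (1 / 2) × Sn (m + 1) =>
        ((q.2, ⟨(q.1 : ℝ), q.1.2.1⟩) : Sn (m + 1) × Ioi (0 : ℝ))) := by
      have h4 : Topology.IsEmbedding (Set.inclusion (Ioo_subset_Ioi_self :
          Ioo (0 : ℝ) (1 / 2) ⊆ Ioi 0)) := Topology.IsEmbedding.inclusion _
      exact (Topology.IsEmbedding.id.prodMap h4).comp
        (Homeomorph.prodComm _ _).isEmbedding
    exact h2.comp h3

theorem polar_ne (ζ ζ' : Circle) {p : ℕ} (hp : p = 2 ∨ p = 3) (h : ζ' ^ p = ζ ^ p)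
    (q : Ioo (0 : ℝ) (1 / 2) × Sn (m + 1)) :
    (polar m ζ q : Eu (m + 3)) ≠ core ζ' := by
  apply tubeV_ne_core hp h
  · intro h0
    have := norm_polar q
    rw [h0, norm_zero] at this
    linarith [q.1.2.1]
  · rw [norm_polar]
    exact q.1.2.2

theorem core_eq_tubeV (ζ : Circle) : (core ζ : Eu (m + 3)) = tubeV ζ 0 := by
  unfold core tubeV
  congr 1
  apply eu_ext
  · rw [sg_zero]
    simp
  · rw [show (1 : Fin (m + 3)) = (0 : Fin (m + 2)).succ from rfl, sg_succ]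
    simp
  · intro i
    rw [sg_succ]
    simp

theorem mem_range_polar (ζ : Circle) (x : Sn (m + 2)) (hx : x ∈ cap m ζ)
    (hne : (x : Eu (m + 3)) ≠ core ζ) : ∃ q, polar m ζ q = x := by
  set b := tl (rot ((ζ⁻¹ : Circle) : ℂ) (x : Eu (m + 3))) with hb
  have h1 := tubeV_tl ζ x hx
  rw [← hb] at h1
  have hb0 : b ≠ 0 := by
    intro h0
    rw [h0, ← core_eq_tubeV] at h1
    exact hne h1.symm
  have hpos : 0 < ‖b‖ := norm_pos_iff.2 hb0
  refine ⟨(⟨‖b‖, hpos, hx.2⟩, ⟨‖b‖⁻¹ • b, ?_⟩), ?_⟩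
  · rw [mem_sphere_zero_iff_norm, norm_smul, norm_inv, norm_norm, inv_mul_cancel₀ hpos.ne']
  · apply Subtype.ext
    change tubeV ζ (‖b‖ • ‖b‖⁻¹ • b) = x
    rw [smul_smul, mul_inv_cancel₀ hpos.ne', one_smul, h1]

theorem re_nonpos {p : ℕ} (hp : p = 2 ∨ p = 3) {u : Circle} (hu : u ^ p = 1) (h1 : u ≠ 1) :
    (u : ℂ).re ≤ 0 := by
  by_contra hgt
  push Not at hgt
  apply h1
  have hnorm : (u : ℂ).re ^ 2 + (u : ℂ).im ^ 2 = 1 := by
    have := Complex.sq_norm (u : ℂ)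
    rw [Circle.norm_coe, Complex.normSq_apply] at this
    nlinarith
  have him : (u : ℂ).im = 0 := by
    rcases hp with rfl | rfl
    · have h2 : (u : ℂ) ^ 2 = 1 := by
        rw [← Circle.coe_pow, hu, Circle.coe_one]
      have h3 := congrArg Complex.im h2
      simp only [pow_two, Complex.mul_im, Complex.one_im] at h3
      nlinarith
    · have h2 : (u : ℂ) ^ 3 = 1 := by
        rw [← Circle.coe_pow, hu, Circle.coe_one]
      have h3 := congrArg Complex.im h2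
      have h3' := congrArg Complex.re h2
      have h4 : (u : ℂ).im * (3 * (u : ℂ).re ^ 2 - (u : ℂ).im ^ 2) = 0 := by
        simp only [pow_succ, pow_zero, one_mul, Complex.mul_im, Complex.mul_re,
          Complex.one_im] at h3
        linarith
      rcases mul_eq_zero.1 h4 with h5 | h5
      · exact h5
      · exfalso
        have h6 : (u : ℂ).re ^ 2 = 1 / 4 := by nlinarith
        have h7 : (u : ℂ).im ^ 2 = 3 / 4 := by nlinarith
        have h8 : (u : ℂ).re * ((u : ℂ).re ^ 2 - 3 * (u : ℂ).im ^ 2) = 1 := by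
          simp only [pow_succ, pow_zero, one_mul, Complex.mul_im, Complex.mul_re,
            Complex.one_re] at h3'
          nlinarith
        rw [h6, h7] at h8
        nlinarith
  have hre1 : (u : ℂ).re = 1 := by nlinarith
  apply Circle.ext
  rw [Circle.coe_one]
  exact Complex.ext (by rw [hre1]; rfl) (by rw [him]; rfl)

theorem cap_disj {p : ℕ} (hp : p = 2 ∨ p = 3) {ζ ζ' : Circle} (h : ζ ^ p = 1) (h' : ζ' ^ p = 1)
    {x : Sn (m + 2)} (hx : x ∈ cap m ζ) (hx' : x ∈ cap m ζ') : ζ = ζ' := by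
  by_contra hne
  set u : Circle := ζ'⁻¹ * ζ with hu
  have hup : u ^ p = 1 := by
    rw [hu, mul_pow, h, inv_pow, h', inv_one, one_mul]
  have hu1 : u ≠ 1 := by
    intro h0
    apply hne
    have := congrArg (ζ' * ·) h0
    simpa [hu] using this
  have hre := re_nonpos hp hup hu1
  set w := rot ((ζ⁻¹ : Circle) : ℂ) (x : Eu (m + 3)) with hw
  set w' := rot ((ζ'⁻¹ : Circle) : ℂ) (x : Eu (m + 3)) with hw'
  have h1 : w' = rot (u : ℂ) w := by
    rw [hw, hw', ← rot_mul, ← Circle.coe_mul]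
    congr 2
    rw [hu, mul_assoc, mul_inv_cancel, mul_one]
  have h2 : w' 0 = (u : ℂ).re * w 0 - (u : ℂ).im * w 1 := by
    rw [h1, rot_apply_zero]
  have hnorm : (u : ℂ).re ^ 2 + (u : ℂ).im ^ 2 = 1 := by
    have := Complex.sq_norm (u : ℂ)
    rw [Circle.norm_coe, Complex.normSq_apply] at this
    nlinarith
  have n1 : ‖w‖ = 1 := by rw [hw, norm_rot_circle, norm_eq_of_mem_sphere]
  have n2 : ‖w'‖ = 1 := by rw [hw', norm_rot_circle, norm_eq_of_mem_sphere]
  have e1 := norm_sq_tl w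
  have e2 := norm_sq_tl w'
  have c1 : 0 < w 0 := hx.1
  have c2 : ‖tl w‖ < 1 / 2 := hx.2
  have c3 : 0 < w' 0 := hx'.1
  have c4 : ‖tl w'‖ < 1 / 2 := hx'.2
  rw [n1] at e1
  rw [n2] at e2
  have d1 : w 1 ^ 2 ≤ ‖tl w‖ ^ 2 := by
    have h3 := norm_sq_tl (tl w)
    rw [tl_apply] at h3
    have h4 : w (Fin.succ 0) = w 1 := rfl
    rw [h4] at h3
    nlinarith [sq_nonneg ‖tl (tl w)‖]
  have d2 : w 1 ^ 2 < 1 / 4 := by nlinarith [norm_nonneg (tl w)]
  have d3 : 3 / 4 < w' 0 ^ 2 := by nlinarith [norm_nonneg (tl w')]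
  have d4 : 0 < -((u : ℂ).im * w 1) := by nlinarith
  have d5 : w' 0 ≤ -((u : ℂ).im * w 1) := by nlinarith
  have d6 : w' 0 ^ 2 ≤ ((u : ℂ).im * w 1) ^ 2 := by nlinarith
  have d7 : ((u : ℂ).im * w 1) ^ 2 ≤ w 1 ^ 2 := by
    rw [mul_pow]
    nlinarith [sq_nonneg (w 1), sq_nonneg (u : ℂ).re]
  linarith

end Pool.Agent.S1S3.H65
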