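import Pool.Agent.Helper65_S1S3.Basic

/-!
# Finite disjoint unions
-/

set_option autoImplicit false
set_option linter.unusedSectionVars false

open scoped Manifold ContDiff Topology unitInterval
open CategoryTheory Set

noncomputable section

namespace Pool.Agent.S1S3.H65

/-- `x ↦ ∑ j, f_j x_j` on homology -/
def sumHom (i : ℕ) {P W : Type} [TopologicalSpace P] [TopologicalSpace W] {n : ℕ}
    (f : Fin n → C(P, W)) : (Fin n → HH i P) →+ HH i W :=
  ∑ j, (Hm i (f j)).comp (Pi.evalAddMonoidHom (fun _ => HH i P) j)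

theorem sumHom_apply (i : ℕ) {P W : Type} [TopologicalSpace P] [TopologicalSpace W] {n : ℕ}
    (f : Fin n → C(P, W)) (x : Fin n → HH i P) : sumHom i f x = ∑ j, Hm i (f j) (x j) := by
  unfold sumHom
  rw [AddMonoidHom.finsetSum_apply]
  rfl

/-- a subset of a subset -/
def subHomeo {X : Type} [TopologicalSpace X] (S T : Set X) (h : T ⊆ S) :
    T ≃ₜ {y : S | y.1 ∈ T} where
  toFun x := ⟨⟨x.1, h x.2⟩, x.2⟩
  invFun y := ⟨y.1.1, y.2⟩
  left_inv _ := rfl
  right_inv _ := rfl
  continuous_toFun := by fun_prop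
  continuous_invFun := by fun_prop

/-- the homology of a finite disjoint union of spaces with the same model -/
theorem disj_fin (hF : FunctStatement) (h0 : H0Statement) (hMV : MVStatement) (i : ℕ) {P : Type}
    [TopologicalSpace P] : ∀ (n : ℕ) (W : Type) [TopologicalSpace W] (S : Fin n → Set W)
    (_ : ∀ j, IsOpen (S j)) (_ : ∀ w, ∃ j, w ∈ S j)
    (_ : ∀ w j j', w ∈ S j → w ∈ S j' → j = j') (k : ∀ j, C(P, S j))
    (_ : ∀ j, Function.Bijective (Hm i (k j))),
    Function.Bijective (sumHom i fun j => (valC (S j)).comp (k j)) := by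
  intro n
  induction n with
  | zero =>
    intro W _ S hS hc hd k hk
    have : IsEmpty W := ⟨fun w => (hc w).elim fun j _ => j.elim0⟩
    have := h0.empty W i
    exact ⟨fun x y _ => Subsingleton.elim _ _, fun y => ⟨0, Subsingleton.elim _ _⟩⟩
  | succ n ih =>
    intro W _ S hS hc hd k hk
    let B : Set W := {w | ∃ j : Fin n, w ∈ S j.succ}
    have hB : B = ⋃ j : Fin n, S j.succ := by
      ext w
      simp only [B, mem_ofPred_eq, mem_iUnion]
    have hBo : IsOpen B := by
      rw [hB]
      exact isOpen_iUnion fun j => hS _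
    have hcov : S 0 ∪ B = univ := by
      rw [eq_univ_iff_forall]
      intro w
      obtain ⟨j, hj⟩ := hc w
      revert hj
      refine Fin.cases (fun hj => Or.inl hj) (fun j hj => Or.inr ⟨j, hj⟩) j
    have hdis : S 0 ∩ B = ∅ := by
      rw [eq_empty_iff_forall_notMem]
      rintro w ⟨h1, j, h2⟩
      exact (Fin.succ_ne_zero j) (hd w _ _ h2 h1)
    have hsub : ∀ j : Fin n, S j.succ ⊆ B := fun j w hw => ⟨j, hw⟩
    let e : ∀ j : Fin n, S j.succ ≃ₜ {y : B | y.1 ∈ S j.succ} := fun j =>
      subHomeo B (S j.succ) (hsub j)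
    let k' : ∀ j : Fin n, C(P, {y : B | y.1 ∈ S j.succ}) := fun j =>
      (e j : C(_, _)).comp (k j.succ)
    have hk' : ∀ j, Function.Bijective (Hm i (k' j)) := by
      intro j
      have h1 : (Hm i (k' j) : HH i P → _) = Hm i (e j : C(_, _)) ∘ Hm i (k j.succ) := by
        funext x
        exact hm_comp hF i _ _ _
      rw [h1]
      exact (bij_of_homeo hF i (e j)).comp (hk j.succ)
    have ih' := ih B (fun j => {y : B | y.1 ∈ S j.succ})
      (fun j => (hS j.succ).preimage continuous_subtype_val)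
      (fun w => w.2.elim fun j hj => ⟨j, hj⟩)
      (fun w j j' h1 h2 => Fin.succ_injective _ (hd _ _ _ h1 h2)) k' hk'
    set ψ := sumHom i fun j : Fin n => (valC {y : B | y.1 ∈ S j.succ}).comp (k' j) with hψ
    obtain ⟨b1, b2⟩ := disj_bij h0 hMV (S 0) B (hS 0) hBo hcov hdis i
    have key : ∀ x : Fin (n + 1) → HH i P, sumHom i (fun j => (valC (S j)).comp (k j)) x =
        mvDiff (S 0) B i (Hm i (k 0) (x 0), -ψ (fun j => x j.succ)) := by
      intro x
      rw [sumHom_apply, Fin.sum_univ_succ, hψ, sumHom_apply]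
      unfold mvDiff
      rw [AddMonoidHom.coprod_apply, AddMonoidHom.neg_apply, map_neg, neg_neg, map_sum,
        hm_comp hF]
      refine congrArg₂ (· + ·) rfl (Finset.sum_congr rfl fun j _ => ?_)
      rw [← hm_comp hF]
      rfl
    constructor
    · rw [injective_iff_map_eq_zero]
      intro x hx
      rw [key] at hx
      have h3 := (injective_iff_map_eq_zero _).1 b1 _ hx
      rw [Prod.mk_eq_zero] at h3
      have h4 : x 0 = 0 := (hk 0).1 (by rw [h3.1, map_zero])
      have h5 : (fun j : Fin n => x j.succ) = 0 := ih'.1 (by rw [neg_eq_zero.1 h3.2, map_zero])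
      funext j
      refine Fin.cases h4 (fun j => ?_) j
      exact congrFun h5 j
    · intro y
      obtain ⟨⟨a, b⟩, hab⟩ := b2 y
      obtain ⟨a', ha'⟩ := (hk 0).2 a
      obtain ⟨t, ht⟩ := ih'.2 (-b)
      refine ⟨Fin.cons a' t, ?_⟩
      rw [key]
      simp only [Fin.cons_zero, Fin.cons_succ]
      rw [ha', ht, neg_neg, hab]

/-- a finite disjoint union of acyclic spaces is acyclic -/
theorem disj_fin_zero (hF : FunctStatement) (h0 : H0Statement) (hMV : MVStatement) (i : ℕ)
    (hi : i ≠ 0) (n : ℕ) (W : Type) [TopologicalSpace W] (S : Fin n → Set W)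
    (hS : ∀ j, IsOpen (S j)) (hc : ∀ w, ∃ j, w ∈ S j)
    (hd : ∀ w j j', w ∈ S j → w ∈ S j' → j = j') (hcon : ∀ j, ContractibleSpace (S j)) :
    Subsingleton (HH i W) := by
  have h1 := h0.contr Unit i hi
  have h2 : ∀ j, Subsingleton (HH i (S j)) := fun j => h0.contr _ i hi
  have hne : ∀ j, Nonempty (S j) := fun j => inferInstance
  let k : ∀ j, C(Unit, S j) := fun j => ContinuousMap.const _ (hne j).some
  have h3 := disj_fin hF h0 hMV i n W S hS hc hd k (fun j =>
    ⟨fun x y _ => Subsingleton.elim _ _, fun y => ⟨0, Subsingleton.elim _ _⟩⟩)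
  exact ⟨fun x y => by
    obtain ⟨x', rfl⟩ := h3.2 x
    obtain ⟨y', rfl⟩ := h3.2 y
    rw [Subsingleton.elim x' y']⟩

end Pool.Agent.S1S3.H65
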