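import Pool.Agent.Helper83_S1S3.Stmts

/-!
# Module FLAT: the preimage of a smoothly embedded hypersurface is locally flat
-/

set_option autoImplicit false
set_option linter.unusedSectionVars false

open scoped Manifold ContDiff Topology unitInterval
open CategoryTheory Set

noncomputable section

namespace Pool.Agent.S1S3.H65

/-- the covering map is locally a homeomorphism -/
theorem covX_local (q : XT) : ∃ e : OpenPartialHomeomorph XT (Circle × Sn 3),
    q ∈ e.source ∧ ∀ x, e x = covX x := by
  obtain ⟨e1, h1, h2⟩ := isLocalHomeomorph_circleExp (2 * Real.pi * q.1)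
  have hne : (2 * Real.pi : ℝ) ≠ 0 := by positivity
  refine ⟨((Homeomorph.mulLeft₀ (2 * Real.pi) hne).toOpenPartialHomeomorph.trans e1).prod
    (OpenPartialHomeomorph.refl (Sn 3)), ?_, ?_⟩
  · simp only [OpenPartialHomeomorph.prod_source, OpenPartialHomeomorph.refl_source, mem_prod,
      mem_univ, and_true]
    rw [OpenPartialHomeomorph.trans_source]
    exact ⟨mem_univ _, h1⟩
  · rintro ⟨s, x⟩
    change (e1 (2 * Real.pi * s), x) = (Circle.exp (2 * Real.pi * s), x)
    rw [h2]

/-- slice charts of a smooth embedding of codimension one -/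
theorem slice {Y N : Type} [TopologicalSpace Y] [TopologicalSpace N]
    [ChartedSpace (ModelProd (Eu 1) (Eu 2)) Y] [ChartedSpace (ModelProd (Eu 1) (Eu 3)) N]
    (ι : Y → N) (hι : Manifold.IsSmoothEmbedding ((𝓡 1).prod (𝓡 2)) ((𝓡 1).prod (𝓡 3)) ∞ ι)
    (y : Y) : ∃ e : OpenPartialHomeomorph N (ℝ × Eu 3), ι y ∈ e.source ∧
      ∀ z ∈ e.source, (z ∈ range ι ↔ (e z).1 = 0) := by
  have h := hι.isImmersion.isImmersionAt y
  -- dimensions
  let inj : h.complement →ₗ[ℝ] (Eu 1 × Eu 3) :=
    h.equiv.toLinearEquiv.toLinearMap.comp (LinearMap.inr ℝ (Eu 1 × Eu 2) h.complement)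
  have hinj : Function.Injective inj := by
    intro a b hab
    have h1 : h.equiv ((0 : Eu 1 × Eu 2), a) = h.equiv ((0 : Eu 1 × Eu 2), b) := hab
    exact congrArg Prod.snd (h.equiv.injective h1)
  have hfin : FiniteDimensional ℝ h.complement := FiniteDimensional.of_injective inj hinj
  have hdim : Module.finrank ℝ h.complement = 1 := by
    have h1 := h.equiv.toLinearEquiv.finrank_eq
    rw [Module.finrank_prod, Module.finrank_prod, Module.finrank_prod] at h1
    simp only [finrank_euclideanSpace_fin] at h1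
    omega
  let L1 : (Eu 1 × Eu 2) ≃L[ℝ] Eu 3 := ContinuousLinearEquiv.ofFinrankEq (by
    rw [Module.finrank_prod]
    simp only [finrank_euclideanSpace_fin])
  let L2 : h.complement ≃L[ℝ] ℝ := ContinuousLinearEquiv.ofFinrankEq (by
    rw [hdim, Module.finrank_self])
  let Θ : (Eu 1 × Eu 3) ≃ₜ (ℝ × Eu 3) := h.equiv.symm.toHomeomorph.trans
    ((Homeomorph.prodComm _ _).trans (L2.toHomeomorph.prodCongr L1.toHomeomorph))
  have hΘ : ∀ u f, Θ (h.equiv (u, f)) = (L2 f, L1 u) := by
    intro u f
    change (L2 (h.equiv.symm (h.equiv (u, f))).2, L1 (h.equiv.symm (h.equiv (u, f))).1) = _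
    rw [ContinuousLinearEquiv.symm_apply_apply]
  let C : OpenPartialHomeomorph N (ℝ × Eu 3) :=
    h.codChart.transHomeomorph (((𝓡 1).prod (𝓡 3)).toHomeomorph.trans Θ)
  have hC : ∀ z, C z = Θ (h.codChart.extend ((𝓡 1).prod (𝓡 3)) z) := fun z => rfl
  have hCs : C.source = h.codChart.source := rfl
  set T : Set (Eu 1 × Eu 2) := (h.domChart.extend ((𝓡 1).prod (𝓡 2))).target with hT
  have hTo : IsOpen T := h.domChart.isOpen_extend_target
  have hCy : ∀ y' ∈ h.domChart.source,
      C (ι y') = (0, L1 (h.domChart.extend ((𝓡 1).prod (𝓡 2)) y')) ∧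
      h.domChart.extend ((𝓡 1).prod (𝓡 2)) y' ∈ T := by
    intro y' hy'
    have h2 : h.domChart.extend ((𝓡 1).prod (𝓡 2)) y' ∈ T :=
      (h.domChart.extend ((𝓡 1).prod (𝓡 2))).map_source (by rwa [h.domChart.extend_source])
    refine ⟨?_, h2⟩
    have h3 := h.writtenInCharts h2
    simp only [Function.comp_apply] at h3
    rw [h.domChart.extend_left_inv hy'] at h3
    rw [hC, h3, hΘ, map_zero]
  -- the neighbourhood
  obtain ⟨W1, hW1, hW1'⟩ := hι.isEmbedding.isInducing.isOpen_iff.1 h.domChart.open_source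
  let S : Set (ℝ × Eu 3) := {w | L1.symm w.2 ∈ T}
  have hS : IsOpen S := hTo.preimage (L1.symm.continuous.comp continuous_snd)
  have hW : IsOpen (W1 ∩ (C.source ∩ C ⁻¹' S)) := hW1.inter (C.isOpen_inter_preimage hS)
  refine ⟨C.restrOpen _ hW, ?_, ?_⟩
  · rw [OpenPartialHomeomorph.restrOpen_source]
    have h1 := hCy y h.mem_domChart_source
    refine ⟨h.mem_codChart_source, ?_, h.mem_codChart_source, ?_⟩
    · have : y ∈ ι ⁻¹' W1 := by
        rw [hW1']
        exact h.mem_domChart_source
      exact this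
    · change L1.symm (C (ι y)).2 ∈ T
      rw [h1.1]
      change L1.symm (L1 _) ∈ T
      rw [ContinuousLinearEquiv.symm_apply_apply]
      exact h1.2
  · intro z hz
    rw [OpenPartialHomeomorph.restrOpen_source] at hz
    obtain ⟨hz1, hz2, -, hz3⟩ := hz
    change z ∈ range ι ↔ (C z).1 = 0
    constructor
    · rintro ⟨y', rfl⟩
      have hy' : y' ∈ h.domChart.source := by
        rw [← hW1']
        exact hz2
      rw [(hCy y' hy').1]
    · intro h0
      have hz3' : L1.symm (C z).2 ∈ T := hz3
      set y' := (h.domChart.extend ((𝓡 1).prod (𝓡 2))).symm (L1.symm (C z).2) with hy'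
      have hys : y' ∈ h.domChart.source := by
        have := (h.domChart.extend ((𝓡 1).prod (𝓡 2))).map_target hz3'
        rwa [h.domChart.extend_source] at this
      have h1 := hCy y' hys
      have h2 : h.domChart.extend ((𝓡 1).prod (𝓡 2)) y' = L1.symm (C z).2 :=
        (h.domChart.extend ((𝓡 1).prod (𝓡 2))).right_inv hz3'
      have h3 : C (ι y') = C z := by
        rw [h1.1, h2, ContinuousLinearEquiv.apply_symm_apply, ← h0]
      refine ⟨y', C.injOn ?_ hz1 h3⟩
      exact h.source_subset_preimage_source hys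

/-- **Module FLAT.** -/
theorem flat : FlatStatement := by
  intro Y _ _ _ ι hι
  constructor
  · have h1 : IsCompact (range ι) := isCompact_range hι.isEmbedding.continuous
    exact h1.isClosed.preimage covX.continuous
  · intro q hq
    obtain ⟨y, hy⟩ := hq
    obtain ⟨e0, h0, h0'⟩ := covX_local q
    obtain ⟨e, he, he'⟩ := slice ι hι y
    refine ⟨e0.trans e, ?_, ?_⟩
    · rw [OpenPartialHomeomorph.trans_source]
      refine ⟨h0, ?_⟩
      change e0 q ∈ e.source
      rw [h0', ← hy]
      exact he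
    · intro x hx
      rw [OpenPartialHomeomorph.trans_source] at hx
      have h1 : e0 x ∈ e.source := hx.2
      rw [h0'] at h1
      change covX x ∈ range ι ↔ (e (e0 x)).1 = 0
      rw [h0', he' _ h1]

end Pool.Agent.S1S3.H65
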