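import Pool.Agent.Helper65_S1S3.Roots

/-!
# Module PUNCT: the homology of the sphere minus two or three points
-/

set_option autoImplicit false
set_option linter.unusedSectionVars false

open scoped Manifold ContDiff Topology unitInterval
open CategoryTheory Set

noncomputable section

namespace Pool.Agent.S1S3.H65

variable {m p : ℕ}

/-! ### path connectedness -/

theorem isPathConnected_puncS (hp : p ≠ 0) : IsPathConnected (puncS p m) := by
  let v : Sn (m + 2) := coreS 1
  have hfr : Module.finrank ℝ (Eu (m + 3)) = (m + 2) + 1 := by simp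
  have : Fact (Module.finrank ℝ (Eu (m + 3)) = (m + 2) + 1) := ⟨hfr⟩
  let F := stereographic' (m + 2) v
  have htar : F.target = univ := stereographic'_target v
  have hsrc : F.source = {v}ᶜ := stereographic'_source v
  have hcont : Continuous F.symm := by
    rw [← continuousOn_univ, ← htar]
    exact F.continuousOn_symm
  have hinj : Function.Injective F.symm := by
    intro a b hab
    exact F.symm.injOn (by simp [htar]) (by simp [htar]) hab
  let T : Set (Eu (m + 2)) := F.symm ⁻¹' (puncS p m)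
  have hTc : Tᶜ = F.symm ⁻¹' (range fun j : Fin p => (coreS (rootU p j) : Sn (m + 2))) := by
    ext y
    simp only [T, puncS, mem_compl_iff, mem_preimage, mem_ofPred_eq, not_forall, not_not,
      mem_range, exists_prop]
    constructor
    · rintro ⟨ζ, h1, h2⟩
      obtain ⟨j, rfl⟩ := exists_rootU hp h1
      exact ⟨j, Subtype.ext h2.symm⟩
    · rintro ⟨j, hj⟩
      exact ⟨_, rootU_pow p j hp, congrArg Subtype.val hj.symm⟩
  have hTfin : (Tᶜ).Finite := by
    rw [hTc]
    exact (finite_range _).preimage hinj.injOn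
  have hrank : 1 < Module.rank ℝ (Eu (m + 2)) := by
    rw [← Module.finrank_eq_rank, finrank_euclideanSpace_fin]
    exact_mod_cast (by omega : 1 < m + 2)
  have h1 : IsPathConnected T := by
    have := hTfin.countable.isPathConnected_compl_of_one_lt_rank hrank
    rwa [compl_compl] at this
  have h2 : F.symm '' T = puncS p m := by
    ext x
    constructor
    · rintro ⟨y, hy, rfl⟩
      exact hy
    · intro hx
      have hxs : x ∈ F.source := by
        rw [hsrc]
        exact puncS_subset hx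
      exact ⟨F x, by
        change F.symm (F x) ∈ puncS p m
        rwa [F.left_inv hxs], F.left_inv hxs⟩
  rw [← h2]
  exact h1.image hcont

/-! ### rotations -/

/-- the rotation of the sphere by a root of unity -/
def rotS (m : ℕ) (ζ : Circle) : C(Sn (m + 2), Sn (m + 2)) where
  toFun x := ⟨rot (ζ : ℂ) (x : Eu (m + 3)), by
    rw [mem_sphere_zero_iff_norm, norm_rot_circle, norm_eq_of_mem_sphere]⟩
  continuous_toFun := Continuous.subtype_mk (continuous_rotc ζ) _

theorem rotS_homotopic (t : ℝ) : (rotS m (Circle.exp t)).Homotopic (ContinuousMap.id _) := by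
  refine ⟨⟨⟨fun q => rotS m (Circle.exp ((1 - (q.1 : ℝ)) * t)) q.2, ?_⟩, ?_, ?_⟩⟩
  · unfold rotS
    refine Continuous.subtype_mk ?_ _
    fun_prop
  · intro x
    change rotS m (Circle.exp ((1 - ((0 : I) : ℝ)) * t)) x = rotS m (Circle.exp t) x
    simp
  · intro x
    change rotS m (Circle.exp ((1 - ((1 : I) : ℝ)) * t)) x = x
    apply Subtype.ext
    change rot ((Circle.exp ((1 - ((1 : I) : ℝ)) * t) : Circle) : ℂ) (x : Eu (m + 3)) = x
    simp [rot_one]

theorem rotS_punc {ζ : Circle} (hζ : ζ ^ p = 1) : MapsTo (rotS m ζ) (puncS p m) (puncS p m) := by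
  intro x hx ζ' hζ' h
  apply hx (ζ⁻¹ * ζ') (by rw [mul_pow, inv_pow, hζ, hζ', inv_one, one_mul])
  have h2 := congrArg (rot ((ζ⁻¹ : Circle) : ℂ)) h
  change rot ((ζ⁻¹ : Circle) : ℂ) (rot (ζ : ℂ) (x : Eu (m + 3))) = _ at h2
  rw [rot_inv_rot] at h2
  rw [h2]
  unfold core
  rw [← rot_mul, ← Circle.coe_mul]

theorem rotS_cap {ζ ζ' : Circle} {x : Sn (m + 2)} (hx : x ∈ cap m ζ') :
    rotS m ζ x ∈ cap m (ζ * ζ') := by
  have h : rot (((ζ * ζ')⁻¹ : Circle) : ℂ) ((rotS m ζ x : Sn (m + 2)) : Eu (m + 3)) =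
      rot ((ζ'⁻¹ : Circle) : ℂ) (x : Eu (m + 3)) := by
    change rot (((ζ * ζ')⁻¹ : Circle) : ℂ) (rot (ζ : ℂ) (x : Eu (m + 3))) = _
    rw [← rot_mul, ← Circle.coe_mul]
    congr 2
    rw [mul_inv_rev, mul_assoc, inv_mul_cancel, mul_one]
  unfold cap
  rw [mem_ofPred_eq, h]
  exact hx

theorem rootU_fin_add {q : ℕ} (i j : Fin (q + 1)) :
    rootU (q + 1) ((i + j : Fin (q + 1)) : ℕ) = rootU (q + 1) i * rootU (q + 1) j := by
  rw [Fin.val_add, rootU_mod (Nat.succ_ne_zero q), rootU_add]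

theorem rotS_caps {q : ℕ} (j : Fin (q + 1)) :
    MapsTo (rotS m (rootU (q + 1) j)) (caps (q + 1) m) (caps (q + 1) m) := by
  rintro x ⟨i, hi⟩
  refine ⟨j + i, ?_⟩
  rw [rootU_fin_add]
  exact rotS_cap hi

theorem rotS_hm (hF : FunctStatement) (i j : ℕ) (x : HH i (Sn (m + 2))) :
    Hm i (rotS m (rootU p j)) x = x := by
  unfold rootU
  rw [hF.homotopy i _ _ _ _ (rotS_homotopic _), hm_id hF]

theorem rotS_kap {q : ℕ} (hp : q + 1 = 2 ∨ q + 1 = 3) (i j : Fin (q + 1))
    (h : MapsTo (rotS m (rootU (q + 1) j)) (puncS (q + 1) m ∩ caps (q + 1) m)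
      (puncS (q + 1) m ∩ caps (q + 1) m)) :
    (resC (rotS m (rootU (q + 1) j)) h).comp (kap m hp i) = kap m hp (i + j) := by
  ext u : 1
  apply Subtype.ext
  apply Subtype.ext
  change rot (rootU (q + 1) j : ℂ) (rot (rootU (q + 1) i : ℂ) (sg _)) =
    rot (rootU (q + 1) ((i + j : Fin (q + 1)) : ℕ) : ℂ) (sg _)
  rw [rootU_fin_add, ← rot_mul, ← Circle.coe_mul, mul_comm (rootU (q + 1) j)]

/-! ### comparison with one puncture -/

/-- the inclusion into the sphere with one puncture -/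
def jj (p m : ℕ) : C(↥(puncS p m ∩ caps p m), ↥(puncO m ∩ caps p m)) :=
  inclC (inter_subset_inter_left _ puncS_subset)

theorem kap_zero_injective (hF : FunctStatement) (h0 : H0Statement) (hMV : MVStatement)
    {q : ℕ} (hp : q + 1 = 2 ∨ q + 1 = 3) (i : ℕ) :
    Function.Injective (Hm i ((jj (q + 1) m).comp (kap m hp 0))) := by
  let A : Set ↥(puncO m ∩ caps (q + 1) m) := {y | y.1 ∈ cap m (rootU (q + 1) ((0 : Fin (q + 1)) : ℕ))}
  let B : Set ↥(puncO m ∩ caps (q + 1) m) :=
    {y | ∃ j : Fin (q + 1), j ≠ 0 ∧ y.1 ∈ cap m (rootU (q + 1) j)}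
  have hA : IsOpen A := (isOpen_cap _).preimage continuous_subtype_val
  have hB : IsOpen B := by
    have : B = ⋃ j : Fin (q + 1), ⋃ _ : j ≠ 0,
        Subtype.val ⁻¹' (cap m (rootU (q + 1) j)) := by
      ext y
      simp only [B, mem_ofPred_eq, mem_iUnion, mem_preimage, exists_prop]
    rw [this]
    exact isOpen_iUnion fun j => isOpen_iUnion fun _ =>
      (isOpen_cap _).preimage continuous_subtype_val
  have hcov : A ∪ B = univ := by
    rw [eq_univ_iff_forall]
    rintro ⟨x, h1, j, hj⟩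
    by_cases h : j = 0
    · subst h
      exact Or.inl hj
    · exact Or.inr ⟨j, h, hj⟩
  have hdis : A ∩ B = ∅ := by
    rw [eq_empty_iff_forall_notMem]
    rintro y ⟨h1, j, hj, h2⟩
    exact hj (caps_unique hp h2 h1)
  let f : C(Ioo (0 : ℝ) (1 / 2) × Sn (m + 1), ↥(puncO m ∩ caps (q + 1) m)) :=
    (jj (q + 1) m).comp (fj m hp 0)
  have hf : Topology.IsEmbedding f := by
    refine Topology.IsEmbedding.of_comp f.continuous
      (g := Subtype.val) continuous_subtype_val ?_
    exact isEmbedding_polar _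
  have hr : range f = A := by
    ext y
    constructor
    · rintro ⟨q, rfl⟩
      exact polar_mem _ q
    · intro hy
      have hne : (y.1 : Eu (m + 3)) ≠ core (rootU (q + 1) ((0 : Fin (q + 1)) : ℕ)) := by
        intro h
        apply y.2.1
        apply Subtype.ext
        rw [h, Fin.val_zero, rootU_zero]
        rfl
      obtain ⟨q, hq⟩ := mem_range_polar _ y.1 hy hne
      exact ⟨q, Subtype.ext hq⟩
  let k : C(Sn (m + 1), A) :=
    ⟨fun u => ⟨f (⟨1 / 4, quarter_mem⟩, u), by rw [← hr]; exact ⟨_, rfl⟩⟩, by fun_prop⟩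
  have hk : Function.Bijective (Hm i k) :=
    slab_bij hF quarter_mem f hf A hr k (fun _ => rfl) i
  have hval : Function.Injective (Hm i (valC A)) := by
    rw [injective_iff_map_eq_zero]
    intro x hx
    have h1 := (disj_bij h0 hMV A B hA hB hcov hdis i).1
    have h2 : mvDiff A B i (x, 0) = mvDiff A B i 0 := by
      unfold mvDiff
      rw [AddMonoidHom.coprod_apply, hx, map_zero, map_zero, add_zero]
    exact congrArg Prod.fst (h1 h2)
  have h3 : (jj (q + 1) m).comp (kap m hp 0) = (valC A).comp k := rfl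
  rw [h3]
  intro x y hxy
  rw [hm_comp hF, hm_comp hF] at hxy
  exact hk.1 (hval hxy)

theorem kap_ne_zero (hF : FunctStatement) (h0 : H0Statement)
    {q : ℕ} (hp : q + 1 = 2 ∨ q + 1 = 3) (i : ℕ) (hi : i ≠ 0) (j : Fin (q + 1)) (hj : j ≠ 0)
    (x : HH i (Sn (m + 1))) : Hm i ((jj (q + 1) m).comp (kap m hp j)) x = 0 := by
  have hsub : cap m (rootU (q + 1) j) ⊆ puncO m ∩ caps (q + 1) m := by
    intro y hy
    refine ⟨?_, j, hy⟩
    intro h
    apply hj
    have h1 : y = coreS 1 := h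
    have h2 : y ∈ cap m (rootU (q + 1) ((0 : Fin (q + 1)) : ℕ)) := by
      rw [h1, Fin.val_zero, rootU_zero]
      exact core_mem_cap 1
    exact caps_unique hp hy h2
  let k : C(Sn (m + 1), cap m (rootU (q + 1) j)) :=
    ⟨fun u => ⟨(kap m hp j u).1, polar_mem _ _⟩, by fun_prop⟩
  have h3 : (jj (q + 1) m).comp (kap m hp j) = (inclC hsub).comp k := rfl
  have := contractible_cap (m := m) (rootU (q + 1) j)
  have := h0.contr (cap m (rootU (q + 1) j)) i hi
  rw [h3, hm_comp hF, Subsingleton.elim (Hm i k x) 0, map_zero]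

theorem jj_sumHom (hF : FunctStatement) (h0 : H0Statement)
    {q : ℕ} (hp : q + 1 = 2 ∨ q + 1 = 3) (i : ℕ) (hi : i ≠ 0)
    (x : Fin (q + 1) → HH i (Sn (m + 1))) :
    Hm i (jj (q + 1) m) (sumHom i (fun j => kap m hp j) x) =
      Hm i ((jj (q + 1) m).comp (kap m hp 0)) (x 0) := by
  rw [sumHom_apply, map_sum, Fin.sum_univ_succ, Finset.sum_eq_zero, add_zero, hm_comp hF]
  intro j _
  rw [← hm_comp hF]
  exact kap_ne_zero hF h0 hp i hi _ (Fin.succ_ne_zero j) _

/-! ### the main facts -/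

/-- the connecting homomorphism detects everything, and its image consists of the constant
vectors -/
theorem delta_facts (hF : FunctStatement) (h0 : H0Statement) (hMV : MVStatement)
    {q : ℕ} (hp : q + 1 = 2 ∨ q + 1 = 3) (i : ℕ) :
    ∃ δ : HH (i + 1) (Sn (m + 2)) →+ HH i ↥(puncS (q + 1) m ∩ caps (q + 1) m),
      Function.Exact (mvDiff (puncS (q + 1) m) (caps (q + 1) m) (i + 1)) δ ∧
      Function.Exact δ (mvPair (puncS (q + 1) m) (caps (q + 1) m) i) ∧
      (∀ s, δ s = 0 → s = 0) ∧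
      (i ≠ 0 → ∀ x : Fin (q + 1) → HH i (Sn (m + 1)),
        sumHom i (fun j => kap m hp j) x ∈ range δ ↔ ∀ j, x j = x 0) := by
  have hMV0 := hMV
  obtain ⟨δ, hδ, hnat⟩ := hMV0
  have hq : q + 1 ≠ 0 := Nat.succ_ne_zero q
  obtain ⟨e1, e2, e3, e4⟩ := hδ (Sn (m + 2)) (puncS (q + 1) m) (caps (q + 1) m)
    (isOpen_puncS hq) isOpen_caps (cover_caps hq)
  obtain ⟨e1', e2', e3', e4'⟩ := hδ (Sn (m + 2)) (puncO m) (caps (q + 1) m)
    isOpen_puncO isOpen_caps (cover_caps' hq)
  have hcon := puncO_contractible (m := m)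
  -- comparison
  have hcmp : ∀ (i : ℕ) (s : HH (i + 1) (Sn (m + 2))),
      δ (Sn (m + 2)) (puncO m) (caps (q + 1) m) i s =
        Hm i (jj (q + 1) m) (δ (Sn (m + 2)) (puncS (q + 1) m) (caps (q + 1) m) i s) := by
    intro i s
    have h1 := hnat (Sn (m + 2)) (Sn (m + 2)) (puncS (q + 1) m) (caps (q + 1) m) (puncO m)
      (caps (q + 1) m) (isOpen_puncS hq) isOpen_caps (cover_caps hq) isOpen_puncO isOpen_caps
      (cover_caps' hq) (ContinuousMap.id _) (fun x hx => puncS_subset hx) (fun x hx => hx)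
      (fun x hx => ⟨puncS_subset hx.1, hx.2⟩) i s
    rw [hm_id hF] at h1
    rw [h1]
    rfl
  have hinj' : ∀ s, δ (Sn (m + 2)) (puncO m) (caps (q + 1) m) i s = 0 → s = 0 := by
    intro s hs
    obtain ⟨⟨a, b⟩, hab⟩ := (e2' i s).1 hs
    have h1 := h0.contr (puncO m) (i + 1) (Nat.succ_ne_zero i)
    have h2 := caps_zero (m := m) hF h0 hMV hp (i + 1) (Nat.succ_ne_zero i)
    rw [← hab, Subsingleton.elim a 0, Subsingleton.elim b 0]
    exact map_zero _
  have hconst : ∀ (s : HH (i + 1) (Sn (m + 2))) (x : Fin (q + 1) → HH i (Sn (m + 1))),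
      δ (Sn (m + 2)) (puncS (q + 1) m) (caps (q + 1) m) i s =
        sumHom i (fun j => kap m hp j) x → ∀ j, x j = x 0 := by
    intro s x hs j
    have hmaps := fun j : Fin (q + 1) =>
      (rotS_punc (m := m) (rootU_pow (q + 1) j hq)).inter_inter (rotS_caps (m := m) j)
    have h1 := hnat (Sn (m + 2)) (Sn (m + 2)) (puncS (q + 1) m) (caps (q + 1) m)
      (puncS (q + 1) m) (caps (q + 1) m) (isOpen_puncS hq) isOpen_caps (cover_caps hq)
      (isOpen_puncS hq) isOpen_caps (cover_caps hq) (rotS m (rootU (q + 1) j))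
      (rotS_punc (rootU_pow (q + 1) j hq)) (rotS_caps j) (hmaps j) i s
    rw [rotS_hm hF, hs, sumHom_apply, map_sum] at h1
    have h2 : ∑ k : Fin (q + 1), Hm i (resC (rotS m (rootU (q + 1) j)) (hmaps j))
        (Hm i (kap m hp k) (x k)) = ∑ k : Fin (q + 1), Hm i (kap m hp k) (x (k - j)) := by
      have h3 : ∀ k : Fin (q + 1), Hm i (resC (rotS m (rootU (q + 1) j)) (hmaps j))
          (Hm i (kap m hp k) (x k)) = Hm i (kap m hp (k + j)) (x ((k + j) - j)) := by
        intro k
        rw [← hm_comp hF, rotS_kap hp k j (hmaps j), add_sub_cancel_right]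
      rw [Finset.sum_congr rfl fun k _ => h3 k]
      exact Equiv.sum_comp (Equiv.addRight j) fun k => Hm i (kap m hp k) (x (k - j))
    rw [h2, ← sumHom_apply, ← sumHom_apply i (fun j => kap m hp j) fun k => x (k - j)] at h1
    have h4 := congrFun ((bij_kap hF h0 hMV hp i).1 h1) j
    rw [sub_self] at h4
    exact h4
  refine ⟨δ _ (puncS (q + 1) m) (caps (q + 1) m) i, e2 i, e3 i, ?_, ?_⟩
  · intro s hs
    apply hinj'
    rw [hcmp, hs, map_zero]
  · intro hi x
    constructor
    · rintro ⟨s, hs⟩ j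
      exact hconst s x hs j
    · intro hx
      -- the class in the sphere with one puncture
      have h1 : mvPair (puncO m) (caps (q + 1) m) i
          (Hm i ((jj (q + 1) m).comp (kap m hp 0)) (x 0)) = 0 := by
        have h1 := h0.contr (puncO m) i hi
        have h2 := caps_zero (m := m) hF h0 hMV hp i hi
        exact Prod.ext (Subsingleton.elim _ _) (Subsingleton.elim _ _)
      obtain ⟨s, hs⟩ := (e3' i _).1 h1
      obtain ⟨y, hy⟩ := (bij_kap (m := m) hF h0 hMV hp i).2
        (δ (Sn (m + 2)) (puncS (q + 1) m) (caps (q + 1) m) i s)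
      refine ⟨s, ?_⟩
      rw [← hy]
      congr 1
      have hyc := hconst s y hy.symm
      have h5 : y 0 = x 0 := by
        apply kap_zero_injective hF h0 hMV hp i
        rw [← jj_sumHom hF h0 hp i hi y, hy, ← hcmp, hs]
      funext j
      rw [hyc j, hx j, h5]

theorem infinite_order (hS : SphStatement) (g₀ : HH (m + 1) (Sn (m + 1)))
    (hg : ∀ x : HH (m + 1) (Sn (m + 1)), ∃ a : ℤ, x = a • g₀) (a b : ℤ)
    (h : a • g₀ = b • g₀) : a = b := by
  obtain ⟨e⟩ := hS.top (m + 1) (Nat.succ_ne_zero m)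
  obtain ⟨n, hn⟩ := hg (e.symm 1)
  have h1 : (1 : ℤ) = n * e g₀ := by
    have := congrArg e hn
    rwa [e.apply_symm_apply, map_zsmul, smul_eq_mul] at this
  have hne : e g₀ ≠ 0 := by
    intro h2
    rw [h2, mul_zero] at h1
    exact one_ne_zero h1
  have h3 : a * e g₀ = b * e g₀ := by
    have := congrArg e h
    rwa [map_zsmul, map_zsmul, smul_eq_mul, smul_eq_mul] at this
  exact mul_right_cancel₀ hne h3

/-- the small spheres in the punctured sphere -/
theorem small_eq {q : ℕ} (hp : q + 1 = 2 ∨ q + 1 = 3) (j : Fin (q + 1)) (hj) :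
    ((puncHomeo (q + 1) m : C(↥(puncS (q + 1) m), Punc (q + 1) m)).comp
      (inclC (inter_subset_left (s := puncS (q + 1) m) (t := caps (q + 1) m)))).comp
        (kap m hp j) =
    (rotP (q + 1) m (rootU (q + 1) j) hj :
      C(Punc (q + 1) m, Punc (q + 1) m)).comp (smallP (q + 1) m hp) := by
  ext u : 1
  apply Subtype.ext
  apply Subtype.ext
  change rot (rootU (q + 1) j : ℂ) (sg ((1 / 4 : ℝ) • (u : Eu (m + 2)))) =
    rot (rootU (q + 1) j : ℂ) (rot ((1 : Circle) : ℂ) (sg ((1 / 4 : ℝ) • (u : Eu (m + 2)))))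
  rw [Circle.coe_one, rot_one]

theorem small_sum (hF : FunctStatement) {q : ℕ} (hp : q + 1 = 2 ∨ q + 1 = 3)
    (hj : ∀ j : Fin (q + 1), rootU (q + 1) j ^ (q + 1) = 1)
    (g₀ : HH (m + 1) (Sn (m + 1))) (a : Fin (q + 1) → ℤ) :
    ∑ j : Fin (q + 1), a j • Hm (m + 1) (rotP (q + 1) m (rootU (q + 1) j) (hj j) :
      C(Punc (q + 1) m, Punc (q + 1) m)) (Hm (m + 1) (smallP (q + 1) m hp) g₀) =
    Hm (m + 1) (puncHomeo (q + 1) m : C(↥(puncS (q + 1) m), Punc (q + 1) m))
      (Hm (m + 1) (inclC (inter_subset_left (s := puncS (q + 1) m) (t := caps (q + 1) m)))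
        (sumHom (m + 1) (fun j => kap m hp j) fun j => a j • g₀)) := by
  rw [sumHom_apply, map_sum, map_sum]
  refine Finset.sum_congr rfl fun j _ => ?_
  rw [← hm_comp hF, ← hm_comp hF, ← small_eq hp j (hj j), ← hm_comp hF, map_zsmul]

/-- **Module PUNCT.** -/
theorem punct (hF : FunctStatement) (h0 : H0Statement) (hMV : MVStatement)
    (hS : SphStatement) : PunctStatement where
  pathConnected p m hp := by
    have h1 : PathConnectedSpace ↥(puncS p m) :=
      isPathConnected_iff_pathConnectedSpace.1 (isPathConnected_puncS (by omega))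
    exact (puncHomeo p m).surjective.pathConnectedSpace (puncHomeo p m).continuous
  zero p m hp i hi hi' := by
    obtain ⟨q, rfl⟩ : ∃ q, p = q + 1 := ⟨p - 1, by omega⟩
    obtain ⟨i, rfl⟩ : ∃ k, i = k + 1 := ⟨i - 1, by omega⟩
    have hsub : Subsingleton (HH (i + 1) ↥(puncS (q + 1) m)) := by
      refine subsingleton_of_forall_eq 0 fun x => ?_
      obtain ⟨δ, h1, -, h3, -⟩ := delta_facts (m := m) hF h0 hMV hp i
      have h4 : mvDiff (puncS (q + 1) m) (caps (q + 1) m) (i + 1) (x, 0) = 0 :=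
        h3 _ ((h1 _).2 ⟨_, rfl⟩)
      have h5 := (hMV.choose_spec.1 (Sn (m + 2)) (puncS (q + 1) m) (caps (q + 1) m)
        (isOpen_puncS (Nat.succ_ne_zero q)) isOpen_caps (cover_caps (Nat.succ_ne_zero q))).1
      obtain ⟨y, hy⟩ := (h5 (i + 1) _).1 h4
      obtain ⟨z, rfl⟩ := (bij_kap (m := m) hF h0 hMV hp (i + 1)).2 y
      have h6 := hS.zero (m + 1) (i + 1) (Nat.succ_ne_zero m) (Nat.succ_ne_zero i) hi'
      rw [Subsingleton.elim z 0, map_zero, map_zero] at hy
      exact (congrArg Prod.fst hy).symm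
    have hb := bij_of_homeo hF (i + 1) (puncHomeo (q + 1) m)
    refine ⟨fun x y => ?_⟩
    obtain ⟨x', rfl⟩ := hb.2 x
    obtain ⟨y', rfl⟩ := hb.2 y
    rw [Subsingleton.elim x' y']
  gen p m hp g₀ hg x := by
    obtain ⟨q, rfl⟩ : ∃ q, p = q + 1 := ⟨p - 1, by omega⟩
    obtain ⟨x, rfl⟩ := (bij_of_homeo hF (m + 1) (puncHomeo (q + 1) m)).2 x
    obtain ⟨δ, h1, -, h3, -⟩ := delta_facts (m := m) hF h0 hMV hp m
    have h4 : mvDiff (puncS (q + 1) m) (caps (q + 1) m) (m + 1) (x, 0) = 0 :=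
      h3 _ ((h1 _).2 ⟨_, rfl⟩)
    have h5 := (hMV.choose_spec.1 (Sn (m + 2)) (puncS (q + 1) m) (caps (q + 1) m)
      (isOpen_puncS (Nat.succ_ne_zero q)) isOpen_caps (cover_caps (Nat.succ_ne_zero q))).1
    obtain ⟨y, hy⟩ := (h5 (m + 1) _).1 h4
    obtain ⟨z, rfl⟩ := (bij_kap (m := m) hF h0 hMV hp (m + 1)).2 y
    choose a ha using fun j => hg (z j)
    refine ⟨a, ?_⟩
    rw [small_sum hF hp]
    congr 1
    have h6 : (fun j => a j • g₀) = z := funext fun j => (ha j).symm
    rw [h6]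
    exact (congrArg Prod.fst hy).symm
  rel p m hp g₀ hg a := by
    obtain ⟨q, rfl⟩ : ∃ q, p = q + 1 := ⟨p - 1, by omega⟩
    rw [small_sum hF hp]
    obtain ⟨δ, -, h2, -, h4⟩ := delta_facts (m := m) hF h0 hMV hp (m + 1)
    have hb := (bij_of_homeo hF (m + 1) (puncHomeo (q + 1) m)).1
    have h5 := h4 (Nat.succ_ne_zero m) fun j => a j • g₀
    rw [map_eq_zero_iff _ hb]
    have h6 : Hm (m + 1) (inclC (inter_subset_left (s := puncS (q + 1) m)
        (t := caps (q + 1) m))) (sumHom (m + 1) (fun j => kap m hp j) fun j => a j • g₀) = 0 ↔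
        mvPair (puncS (q + 1) m) (caps (q + 1) m) (m + 1)
          (sumHom (m + 1) (fun j => kap m hp j) fun j => a j • g₀) = 0 := by
      have h7 := caps_zero (m := m) hF h0 hMV hp (m + 1) (Nat.succ_ne_zero m)
      constructor
      · intro h
        exact Prod.ext h (Subsingleton.elim _ _)
      · intro h
        exact congrArg Prod.fst h
    rw [h6, h2, h5]
    constructor
    · intro h i j
      rw [infinite_order hS g₀ hg _ _ (h i), infinite_order hS g₀ hg _ _ (h j)]
    · intro h j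
      rw [h j 0]

end Pool.Agent.S1S3.H65
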