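import Pool.Agent.Helper65_S1S3.Caps
import Pool.Agent.Helper65_S1S3.Disj

/-!
# Roots of unity and the cover of the sphere by the punctured sphere and the caps
-/

set_option autoImplicit false
set_option linter.unusedSectionVars false

open scoped Manifold ContDiff Topology unitInterval
open CategoryTheory Set

noncomputable section

namespace Pool.Agent.S1S3.H65

variable {m p : ℕ}

theorem rootU_add (p i j : ℕ) : rootU p (i + j) = rootU p i * rootU p j := by
  unfold rootU
  rw [← Circle.exp_add]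
  congr 1
  push_cast
  ring

theorem rootU_zero (p : ℕ) : rootU p 0 = 1 := by
  unfold rootU
  simp

theorem rootU_eq_iff (hp : p ≠ 0) (i j : ℕ) :
    rootU p i = rootU p j ↔ ∃ n : ℤ, (i : ℤ) = j + n * p := by
  have hp' : (p : ℝ) ≠ 0 := Nat.cast_ne_zero.2 hp
  unfold rootU
  rw [Circle.exp_eq_exp]
  have hpi := Real.pi_pos
  constructor
  · rintro ⟨n, hn⟩
    refine ⟨n, ?_⟩
    have h1 : 2 * Real.pi * ((i : ℝ) / p - j / p - n) = 0 := by linarith
    have h2 : (i : ℝ) / p - j / p - n = 0 := by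
      rcases mul_eq_zero.1 h1 with h3 | h3
      · linarith
      · exact h3
    have h3 : (i : ℝ) = j + n * p := by
      field_simp at h2
      linarith
    exact_mod_cast h3
  · rintro ⟨n, hn⟩
    refine ⟨n, ?_⟩
    have h3 : (i : ℝ) = j + n * p := by exact_mod_cast hn
    rw [h3]
    field_simp

theorem rootU_mod (hp : p ≠ 0) (j : ℕ) : rootU p (j % p) = rootU p j := by
  rw [rootU_eq_iff hp]
  refine ⟨-(j / p : ℕ), ?_⟩
  have := Nat.mod_add_div j p
  have h2 : ((j % p : ℕ) : ℤ) + p * (j / p : ℕ) = j := by exact_mod_cast this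
  linarith

theorem rootU_inj (hp : p ≠ 0) {i j : ℕ} (hi : i < p) (hj : j < p)
    (h : rootU p i = rootU p j) : i = j := by
  obtain ⟨n, hn⟩ := (rootU_eq_iff hp i j).1 h
  have hn0 : n = 0 := by
    by_contra hne
    rcases lt_or_gt_of_ne hne with h1 | h1
    · have : n * (p : ℤ) ≤ -1 * p := by
        apply mul_le_mul_of_nonneg_right _ (by positivity)
        omega
      have h2 : (j : ℤ) < p := by exact_mod_cast hj
      have h3 : (0 : ℤ) ≤ i := by positivity
      linarith
    · have : 1 * (p : ℤ) ≤ n * p := by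
        apply mul_le_mul_of_nonneg_right _ (by positivity)
        omega
      have h2 : (i : ℤ) < p := by exact_mod_cast hi
      have h3 : (0 : ℤ) ≤ j := by positivity
      linarith
  rw [hn0, zero_mul, add_zero] at hn
  exact_mod_cast hn

theorem exists_rootU (hp : p ≠ 0) {ζ : Circle} (h : ζ ^ p = 1) :
    ∃ j : Fin p, ζ = rootU p j := by
  have hp' : (p : ℝ) ≠ 0 := Nat.cast_ne_zero.2 hp
  obtain ⟨t, rfl⟩ : ∃ t, Circle.exp t = ζ := ⟨_, Circle.exp_arg ζ⟩
  rw [← Circle.exp_nsmul, nsmul_eq_mul, ← Circle.exp_zero, Circle.exp_eq_exp] at h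
  obtain ⟨n, hn⟩ := h
  have hpos : (0 : ℤ) < p := by exact_mod_cast Nat.pos_of_ne_zero hp
  have h0 : 0 ≤ n % (p : ℤ) := Int.emod_nonneg _ hpos.ne'
  have h1 : n % (p : ℤ) < p := Int.emod_lt_of_pos _ hpos
  refine ⟨⟨(n % (p : ℤ)).toNat, by omega⟩, ?_⟩
  unfold rootU
  rw [Circle.exp_eq_exp]
  refine ⟨n / p, ?_⟩
  have h2 : (((n % (p : ℤ)).toNat : ℕ) : ℝ) = ((n % (p : ℤ) : ℤ) : ℝ) := by
    have : (((n % (p : ℤ)).toNat : ℕ) : ℤ) = n % (p : ℤ) := Int.toNat_of_nonneg h0
    exact_mod_cast this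
  have h3 : (n : ℝ) = ((n % (p : ℤ) : ℤ) : ℝ) + p * ((n / (p : ℤ) : ℤ) : ℝ) := by
    have := Int.emod_add_mul_ediv n (p : ℤ)
    exact_mod_cast this.symm
  change t = 2 * Real.pi * ((((n % (p : ℤ)).toNat : ℕ) : ℝ) / p) + _
  rw [h2]
  have h4 : t = n * (2 * Real.pi) / p := by
    field_simp
    linarith
  rw [h4, h3]
  field_simp

/-! ### the cover -/

/-- the sphere minus `p` points -/
def puncS (p m : ℕ) : Set (Sn (m + 2)) := {x | ∀ ζ : Circle, ζ ^ p = 1 → (x : Eu (m + 3)) ≠ core ζ}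

/-- the sphere minus one point -/
def puncO (m : ℕ) : Set (Sn (m + 2)) := {coreS 1}ᶜ

/-- the caps -/
def caps (p m : ℕ) : Set (Sn (m + 2)) := {x | ∃ j : Fin p, x ∈ cap m (rootU p j)}

/-- the identity -/
def puncHomeo (p m : ℕ) : puncS p m ≃ₜ Punc p m where
  toFun x := ⟨x.1, x.2⟩
  invFun x := ⟨x.1, x.2⟩
  left_inv _ := rfl
  right_inv _ := rfl
  continuous_toFun := by fun_prop
  continuous_invFun := by fun_prop

theorem isOpen_puncS (hp : p ≠ 0) : IsOpen (puncS p m) := by
  have h : (puncS p m)ᶜ = range fun j : Fin p => (coreS (rootU p j) : Sn (m + 2)) := by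
    ext x
    simp only [puncS, mem_compl_iff, mem_ofPred_eq, not_forall, not_not, mem_range, exists_prop]
    constructor
    · rintro ⟨ζ, h1, h2⟩
      obtain ⟨j, rfl⟩ := exists_rootU hp h1
      exact ⟨j, Subtype.ext h2.symm⟩
    · rintro ⟨j, rfl⟩
      exact ⟨_, rootU_pow p j hp, rfl⟩
  have h2 : IsClosed (puncS p m)ᶜ := by
    rw [h]
    exact (finite_range _).isClosed
  have := h2.isOpen_compl
  rwa [compl_compl] at this

theorem isOpen_puncO : IsOpen (puncO m) := isOpen_compl_singleton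

theorem isOpen_caps : IsOpen (caps p m) := by
  have : caps p m = ⋃ j : Fin p, cap m (rootU p j) := by
    ext x
    simp only [caps, mem_ofPred_eq, mem_iUnion]
  rw [this]
  exact isOpen_iUnion fun j => isOpen_cap _

theorem puncS_subset : puncS p m ⊆ puncO m := by
  intro x hx h
  exact hx 1 (one_pow p) (congrArg Subtype.val h)

theorem core_mem_cap (ζ : Circle) : (coreS ζ : Sn (m + 2)) ∈ cap m ζ := by
  have h := tubeS_mem_cap (m := m) ζ 0 (by simp)
  have h2 : (coreS ζ : Sn (m + 2)) = tubeS ζ 0 (by simp) := Subtype.ext (core_eq_tubeV ζ)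
  rw [h2]
  exact h

theorem cover_caps (hp : p ≠ 0) : puncS p m ∪ caps p m = univ := by
  rw [eq_univ_iff_forall]
  intro x
  by_cases hx : x ∈ puncS p m
  · exact Or.inl hx
  · right
    simp only [puncS, mem_ofPred_eq, not_forall, not_not, exists_prop] at hx
    obtain ⟨ζ, h1, h2⟩ := hx
    obtain ⟨j, rfl⟩ := exists_rootU hp h1
    refine ⟨j, ?_⟩
    have : x = coreS (rootU p j) := Subtype.ext h2
    rw [this]
    exact core_mem_cap _

theorem cover_caps' (hp : p ≠ 0) : puncO m ∪ caps p m = univ := by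
  apply eq_univ_of_univ_subset
  rw [← cover_caps (m := m) hp]
  exact union_subset_union_left _ puncS_subset

theorem caps_unique (hp : p = 2 ∨ p = 3) {x : Sn (m + 2)} {i j : Fin p}
    (hi : x ∈ cap m (rootU p i)) (hj : x ∈ cap m (rootU p j)) : i = j := by
  have hp0 : p ≠ 0 := by omega
  exact Fin.ext (rootU_inj hp0 i.2 j.2
    (cap_disj hp (rootU_pow p i hp0) (rootU_pow p j hp0) hi hj))

theorem polar_mem_puncS (hp : p = 2 ∨ p = 3) (j : Fin p)
    (q : Ioo (0 : ℝ) (1 / 2) × Sn (m + 1)) : polar m (rootU p j) q ∈ puncS p m := by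
  intro ζ hζ
  apply polar_ne _ _ hp
  rw [hζ, rootU_pow p j (by omega)]

/-- polar coordinates in the intersection -/
def fj (m : ℕ) (hp : p = 2 ∨ p = 3) (j : Fin p) :
    C(Ioo (0 : ℝ) (1 / 2) × Sn (m + 1), ↥(puncS p m ∩ caps p m)) :=
  ⟨fun q => ⟨polar m (rootU p j) q, polar_mem_puncS hp j q, j, polar_mem _ q⟩, by fun_prop⟩

theorem quarter_mem : (1 / 4 : ℝ) ∈ Ioo (0 : ℝ) (1 / 2) := by constructor <;> norm_num

/-- the small spheres around the punctures -/
def kap (m : ℕ) (hp : p = 2 ∨ p = 3) (j : Fin p) : C(Sn (m + 1), ↥(puncS p m ∩ caps p m)) :=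
  ⟨fun u => fj m hp j (⟨1 / 4, quarter_mem⟩, u), by fun_prop⟩

/-- the component of the intersection -/
def comp' (p m : ℕ) (j : Fin p) : Set ↥(puncS p m ∩ caps p m) :=
  {y | y.1 ∈ cap m (rootU p j)}

theorem isEmbedding_fj (hp : p = 2 ∨ p = 3) (j : Fin p) : Topology.IsEmbedding (fj m hp j) := by
  refine Topology.IsEmbedding.of_comp (fj m hp j).continuous
    (g := Subtype.val) continuous_subtype_val ?_
  exact isEmbedding_polar _

theorem range_fj (hp : p = 2 ∨ p = 3) (j : Fin p) : range (fj m hp j) = comp' p m j := by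
  ext y
  constructor
  · rintro ⟨q, rfl⟩
    exact polar_mem _ q
  · intro hy
    obtain ⟨q, hq⟩ := mem_range_polar (rootU p j) y.1 hy
      (y.2.1 _ (rootU_pow p j (by omega)))
    exact ⟨q, Subtype.ext hq⟩

/-- the homology of the intersection -/
theorem bij_kap (hF : FunctStatement) (h0 : H0Statement) (hMV : MVStatement)
    (hp : p = 2 ∨ p = 3) (i : ℕ) :
    Function.Bijective (sumHom i fun j => kap m hp j) := by
  let k : ∀ j : Fin p, C(Sn (m + 1), comp' p m j) := fun j =>
    ⟨fun u => ⟨kap m hp j u, by rw [← range_fj hp]; exact ⟨_, rfl⟩⟩, by fun_prop⟩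
  exact disj_fin hF h0 hMV i p _ (comp' p m)
    (fun j => (isOpen_cap _).preimage continuous_subtype_val)
    (fun w => w.2.2) (fun w j j' h1 h2 => caps_unique hp h1 h2) k
    (fun j => slab_bij hF quarter_mem (fj m hp j) (isEmbedding_fj hp j) _ (range_fj hp j) (k j)
      (fun _ => rfl) i)

/-- the caps are acyclic -/
theorem caps_zero (hF : FunctStatement) (h0 : H0Statement) (hMV : MVStatement)
    (hp : p = 2 ∨ p = 3) (i : ℕ) (hi : i ≠ 0) : Subsingleton (HH i ↥(caps p m)) := by
  refine disj_fin_zero hF h0 hMV i hi p _ (fun j => {y | y.1 ∈ cap m (rootU p j)})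
    (fun j => (isOpen_cap _).preimage continuous_subtype_val)
    (fun w => w.2) (fun w j j' h1 h2 => caps_unique hp h1 h2) (fun j => ?_)
  have := contractible_cap (m := m) (rootU p j)
  exact (subHomeo (caps p m) (cap m (rootU p j)) (fun x hx => ⟨j, hx⟩)).symm.contractibleSpace

/-- the sphere minus one point is contractible -/
theorem puncO_contractible : ContractibleSpace ↥(puncO m) := by
  let v : Sn (m + 2) := coreS 1
  have e : ↥(puncO m) ≃ₜ ↥(stereographic (norm_eq_of_mem_sphere v)).source :=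
    Homeomorph.setCongr rfl
  have e2 := (stereographic (norm_eq_of_mem_sphere v)).toHomeomorphSourceTarget
  have e3 : ↥(stereographic (norm_eq_of_mem_sphere v)).target ≃ₜ
      (ℝ ∙ (v : Eu (m + 3)))ᗮ := Homeomorph.Set.univ _
  exact (e.trans (e2.trans e3)).contractibleSpace

end Pool.Agent.S1S3.H65
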