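import Pool.Agent.Helper65_S1S3.Basic

/-!
# Module WANG: the exact sequence of a mapping torus
-/

set_option autoImplicit false
set_option linter.unusedSectionVars false

open scoped Manifold ContDiff Topology unitInterval
open CategoryTheory Set

noncomputable section

namespace Pool.Agent.S1S3.H65

section Alg

variable {P QU QV X0 X1 HZ HZ1 QU1 QV1 : Type} [AddCommGroup P] [AddCommGroup QU]
  [AddCommGroup QV] [AddCommGroup X0] [AddCommGroup X1] [AddCommGroup HZ] [AddCommGroup HZ1]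
  [AddCommGroup QU1] [AddCommGroup QV1]

theorem alg1 (pair : P →+ QU × QV) (diff : QU × QV →+ X0) (ex : Function.Exact pair diff)
    (E : HZ × HZ →+ P) (hE : Function.Bijective E) (u : HZ →+ QU) (hu : Function.Bijective u)
    (v : HZ →+ QV) (hv : Function.Bijective v) (G G' : HZ →+ HZ)
    (hG : ∀ a, G (G' a) = a) (hG' : ∀ a, G' (G a) = a) (ι : HZ →+ X0)
    (h1 : ∀ a b, pair (E (a, b)) = (u (a + b), v (a + G' b)))
    (h2 : ∀ a b, diff (u a, v b) = ι (a - b)) :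
    Function.Exact (AddMonoidHom.id HZ - G) ι := by
  intro y
  constructor
  · intro hy
    have h3 : diff (u y, v 0) = 0 := by rw [h2, sub_zero, hy]
    obtain ⟨p, hp⟩ := (ex _).1 h3
    obtain ⟨⟨a, b⟩, rfl⟩ := hE.2 p
    rw [h1, Prod.mk.injEq] at hp
    have h4 := hu.1 hp.1
    have h5 := hv.1 hp.2
    refine ⟨a, ?_⟩
    have h6 : G a + b = 0 := by
      have := congrArg G h5
      rwa [map_add, hG, map_zero] at this
    rw [AddMonoidHom.sub_apply, AddMonoidHom.id_apply, ← h4, eq_neg_of_add_eq_zero_left h6,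
      sub_neg_eq_add]
  · rintro ⟨x, rfl⟩
    rw [AddMonoidHom.sub_apply, AddMonoidHom.id_apply]
    have h3 := h1 x (-G x)
    rw [map_neg, hG', add_neg_cancel, map_zero, ← sub_eq_add_neg] at h3
    have h4 : diff (u (x - G x), v 0) = 0 := by
      rw [map_zero, ← h3]
      exact (ex _).2 ⟨_, rfl⟩
    rw [h2, sub_zero] at h4
    exact h4

theorem alg2 (pair : P →+ QU × QV) (δ : X1 →+ P) (ex : Function.Exact δ pair)
    (E : HZ × HZ ≃+ P) (u : HZ →+ QU) (hu : Function.Bijective u)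
    (v : HZ →+ QV) (hv : Function.Bijective v) (G G' : HZ →+ HZ)
    (hG : ∀ a, G (G' a) = a) (hG' : ∀ a, G' (G a) = a)
    (h1 : ∀ a b, pair (E (a, b)) = (u (a + b), v (a + G' b))) :
    Function.Exact ((AddMonoidHom.fst HZ HZ).comp (E.symm.toAddMonoidHom.comp δ))
      (AddMonoidHom.id HZ - G) := by
  intro y
  constructor
  · intro hy
    rw [AddMonoidHom.sub_apply, AddMonoidHom.id_apply, sub_eq_zero] at hy
    have h3 : pair (E (y, -y)) = 0 := by
      rw [h1, map_neg]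
      have h4 : G' y = y := by
        conv_lhs => rw [hy]
        exact hG' y
      rw [h4, add_neg_cancel, map_zero, map_zero]
      rfl
    obtain ⟨x, hx⟩ := (ex _).1 h3
    refine ⟨x, ?_⟩
    change (E.symm (δ x)).1 = y
    rw [hx, AddEquiv.symm_apply_apply]
  · rintro ⟨x, rfl⟩
    change (E.symm (δ x)).1 - G ((E.symm (δ x)).1) = 0
    obtain ⟨⟨a, b⟩, hab⟩ := E.surjective (δ x)
    rw [← hab, AddEquiv.symm_apply_apply]
    have h3 : pair (E (a, b)) = 0 := by
      rw [hab]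
      exact (ex _).2 ⟨_, rfl⟩
    rw [h1, Prod.mk_eq_zero] at h3
    have h4 : a + b = 0 := hu.1 (by rw [h3.1, map_zero])
    have h5 : a + G' b = 0 := hv.1 (by rw [h3.2, map_zero])
    have h6 : G a + b = 0 := by
      have := congrArg G h5
      rwa [map_add, hG, map_zero] at this
    change a - G a = 0
    rw [eq_neg_of_add_eq_zero_left h6, eq_neg_of_add_eq_zero_left h4]
    abel

theorem alg3 (pair : P →+ QU × QV) (δ : X1 →+ P) (ex : Function.Exact δ pair)
    (E : HZ × HZ ≃+ P) (u : HZ →+ QU) (hu : Function.Bijective u)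
    (v : HZ →+ QV) (G' : HZ →+ HZ)
    (h1 : ∀ a b, pair (E (a, b)) = (u (a + b), v (a + G' b)))
    (diff : QU1 × QV1 →+ X1) (ex' : Function.Exact diff δ)
    (u1 : HZ1 →+ QU1) (hu1 : Function.Bijective u1)
    (v1 : HZ1 →+ QV1) (hv1 : Function.Bijective v1) (ι : HZ1 →+ X1)
    (h2 : ∀ a b, diff (u1 a, v1 b) = ι (a - b)) :
    Function.Exact ι ((AddMonoidHom.fst HZ HZ).comp (E.symm.toAddMonoidHom.comp δ)) := by
  intro x
  change (E.symm (δ x)).1 = 0 ↔ _
  constructor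
  · intro hx
    obtain ⟨⟨a, b⟩, hab⟩ := E.surjective (δ x)
    rw [← hab, AddEquiv.symm_apply_apply] at hx
    change a = 0 at hx
    subst hx
    have h3 : pair (E (0, b)) = 0 := by
      rw [hab]
      exact (ex _).2 ⟨_, rfl⟩
    rw [h1, Prod.mk_eq_zero] at h3
    have h4 : 0 + b = 0 := hu.1 (by rw [h3.1, map_zero])
    rw [zero_add] at h4
    subst h4
    have h5 : δ x = 0 := by
      rw [← hab]
      exact map_zero E
    obtain ⟨⟨q1, q2⟩, hq⟩ := (ex' _).1 h5
    obtain ⟨c, rfl⟩ := hu1.2 q1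
    obtain ⟨d, rfl⟩ := hv1.2 q2
    exact ⟨c - d, by rw [← h2, hq]⟩
  · rintro ⟨c, rfl⟩
    have h3 : ι c = diff (u1 c, v1 0) := by rw [h2, sub_zero]
    have h4 : δ (ι c) = 0 := by
      rw [h3]
      exact (ex' _).2 ⟨_, rfl⟩
    rw [h4, map_zero]
    rfl

end Alg

section Geo

variable {X Z : Type} [TopologicalSpace X] [TopologicalSpace Z] (φ : C(ℝ × Z, X)) (g : Z ≃ₜ Z)
  (π : C(X, Circle))

/-- the part over the circle minus a point -/
def arcS (π : C(X, Circle)) (a : ℝ) : Set X := {x | π x ≠ Circle.exp (2 * Real.pi * a)}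

theorem isOpen_arcS (a : ℝ) : IsOpen (arcS π a) := by
  have : arcS π a = π ⁻¹' {Circle.exp (2 * Real.pi * a)}ᶜ := rfl
  rw [this]
  exact isOpen_compl_singleton.preimage π.continuous

theorem exp_eq_iff (a b : ℝ) :
    Circle.exp (2 * Real.pi * a) = Circle.exp (2 * Real.pi * b) ↔ ∃ m : ℤ, a = b + m := by
  rw [Circle.exp_eq_exp]
  have hpi := Real.pi_pos
  constructor
  · rintro ⟨m, hm⟩
    refine ⟨m, ?_⟩
    have h1 : 2 * Real.pi * (a - b - m) = 0 := by linarith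
    have h2 : a - b - m = 0 := by
      rcases mul_eq_zero.1 h1 with h3 | h3
      · linarith
      · exact h3
    linarith
  · rintro ⟨m, rfl⟩
    exact ⟨m, by ring⟩

theorem arcS_union : arcS π 0 ∪ arcS π (-(1 / 2)) = univ := by
  rw [eq_univ_iff_forall]
  intro x
  by_contra h
  rw [mem_union, not_or] at h
  have h1 : π x = Circle.exp (2 * Real.pi * 0) := not_not.1 h.1
  have h2 : π x = Circle.exp (2 * Real.pi * (-(1 / 2))) := not_not.1 h.2
  rw [h1, exp_eq_iff] at h2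
  obtain ⟨m, hm⟩ := h2
  have h3 : (2 * m : ℝ) = 1 := by linarith
  have h4 : (2 * m : ℤ) = 1 := by exact_mod_cast h3
  omega

variable (hπ : ∀ θ z, π (φ (θ, z)) = Circle.exp (2 * Real.pi * θ))
  (hper : ∀ θ z, φ (θ + 1, g z) = φ (θ, z)) (hsurj : Function.Surjective φ)
  (hemb : ∀ a : ℝ, Topology.IsOpenEmbedding fun q : (Ioo a (a + 1)) × Z => φ (q.1, q.2))

include hπ in
theorem mem_arcS (a θ : ℝ) (z : Z) : φ (θ, z) ∈ arcS π a ↔ ∀ m : ℤ, θ ≠ a + m := by
  unfold arcS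
  rw [mem_ofPred_eq, hπ, Ne, exp_eq_iff, not_exists]

include hπ in
theorem mem_arcS_of (a θ : ℝ) (n : ℤ) (h1 : a + n < θ) (h2 : θ < a + n + 1) (z : Z) :
    φ (θ, z) ∈ arcS π a := by
  rw [mem_arcS φ π hπ]
  intro m hm
  rw [hm] at h1 h2
  have h3 : (n : ℝ) < m := by linarith
  have h4 : (m : ℝ) < n + 1 := by linarith
  have h5 : n < m := by exact_mod_cast h3
  have h6 : m < n + 1 := by exact_mod_cast h4
  omega

include hper in
theorem exists_shift (n : ℤ) : ∀ θ z, ∃ z', φ (θ + n, z') = φ (θ, z) := by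
  induction n using Int.induction_on with
  | zero => intro θ z; exact ⟨z, by simp⟩
  | succ n ih =>
    intro θ z
    obtain ⟨z', hz'⟩ := ih θ z
    refine ⟨g z', ?_⟩
    rw [← hz']
    have h := hper (θ + (n : ℤ)) z'
    rw [← h]
    congr 2
    push_cast
    ring
  | pred n ih =>
    intro θ z
    obtain ⟨z', hz'⟩ := ih θ z
    refine ⟨g.symm z', ?_⟩
    rw [← hz']
    have h := hper (θ + ((-(n : ℤ) - 1 : ℤ) : ℝ)) (g.symm z')
    rw [← h, g.apply_symm_apply]
    congr 2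
    push_cast
    ring

include hper hsurj in
theorem exists_rep (a : ℝ) (x : X) : ∃ θ ∈ Ico a (a + 1), ∃ z, φ (θ, z) = x := by
  obtain ⟨⟨θ, z⟩, rfl⟩ := hsurj x
  obtain ⟨z', hz'⟩ := exists_shift φ g hper (-⌊θ - a⌋) θ z
  refine ⟨θ + ((-⌊θ - a⌋ : ℤ) : ℝ), ⟨?_, ?_⟩, z', hz'⟩
  · have := Int.floor_le (θ - a)
    push_cast
    linarith
  · have := Int.lt_floor_add_one (θ - a)
    push_cast
    linarith

include hπ hper hsurj in
theorem arcS_eq (a : ℝ) : arcS π a = range fun q : (Ioo a (a + 1)) × Z => φ (q.1, q.2) := by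
  ext x
  constructor
  · intro hx
    obtain ⟨θ, hθ, z, rfl⟩ := exists_rep φ g hper hsurj a x
    have h1 := (mem_arcS φ π hπ a θ z).1 hx 0
    refine ⟨(⟨θ, lt_of_le_of_ne hθ.1 ?_, hθ.2⟩, z), rfl⟩
    intro h
    apply h1
    rw [← h]
    simp
  · rintro ⟨⟨⟨θ, hθ⟩, z⟩, rfl⟩
    exact mem_arcS_of φ π hπ a θ 0 (by simpa using hθ.1) (by simpa using hθ.2) z

include hemb in
theorem emb_sub (a c d : ℝ) (hac : a ≤ c) (hd : d ≤ a + 1) :
    Topology.IsOpenEmbedding fun q : (Ioo c d) × Z => φ (q.1, q.2) := by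
  have h1 : Ioo c d ⊆ Ioo a (a + 1) := Ioo_subset_Ioo hac hd
  have h2 : Topology.IsOpenEmbedding (Set.inclusion h1) :=
    Topology.IsOpenEmbedding.inclusion h1 (isOpen_Ioo.preimage continuous_subtype_val)
  exact (hemb a).comp (h2.prodMap Topology.IsOpenEmbedding.id)

end Geo

/-- **Module WANG.** -/
theorem wang (hF : FunctStatement) (h0 : H0Statement) (hMV : MVStatement) : WangStatement := by
  intro X Z _ _ φ g π hπ hper hsurj hemb
  set U : Set X := arcS π 0 with hU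
  set V : Set X := arcS π (-(1 / 2)) with hV
  have hUo : IsOpen U := isOpen_arcS π 0
  have hVo : IsOpen V := isOpen_arcS π _
  have hUV : U ∪ V = univ := arcS_union π
  have memU : ∀ θ z, 0 < θ → θ < 1 → φ (θ, z) ∈ U := fun θ z h1 h2 =>
    mem_arcS_of φ π hπ 0 θ 0 (by simpa using h1) (by simpa using h2) z
  have memV : ∀ θ z, -(1 / 2) < θ → θ < 1 / 2 → φ (θ, z) ∈ V := fun θ z h1 h2 =>
    mem_arcS_of φ π hπ _ θ 0 (by push_cast; linarith) (by push_cast; linarith) z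
  have memV' : ∀ θ z, 1 / 2 < θ → θ < 3 / 2 → φ (θ, z) ∈ V := fun θ z h1 h2 =>
    mem_arcS_of φ π hπ _ θ 1 (by push_cast; linarith) (by push_cast; linarith) z
  -- the maps
  let ι : C(Z, X) := φ.comp ⟨fun z => ((0 : ℝ), z), by fun_prop⟩
  let kU : C(Z, U) := ⟨fun z => ⟨φ (1 / 2, z), memU _ _ (by norm_num) (by norm_num)⟩, by fun_prop⟩
  let kV : C(Z, V) := ⟨fun z => ⟨φ (0, z), memV _ _ (by norm_num) (by norm_num)⟩, by fun_prop⟩
  let fA : C(Ioo (0 : ℝ) (1 / 2) × Z, ↥(U ∩ V)) := ⟨fun q => ⟨φ (q.1, q.2),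
    memU _ _ q.1.2.1 (by linarith [q.1.2.2]), memV _ _ (by linarith [q.1.2.1]) q.1.2.2⟩,
    by fun_prop⟩
  let fB : C(Ioo (1 / 2 : ℝ) 1 × Z, ↥(U ∩ V)) := ⟨fun q => ⟨φ (q.1, q.2),
    memU _ _ (by linarith [q.1.2.1]) q.1.2.2, memV' _ _ q.1.2.1 (by linarith [q.1.2.2])⟩,
    by fun_prop⟩
  have hval : Topology.IsOpenEmbedding (Subtype.val : ↥(U ∩ V) → X) :=
    (hUo.inter hVo).isOpenEmbedding_subtypeVal
  have hfA : Topology.IsOpenEmbedding fA :=
    Topology.IsOpenEmbedding.of_comp fA hval (emb_sub φ hemb 0 0 (1 / 2) le_rfl (by norm_num))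
  have hfB : Topology.IsOpenEmbedding fB :=
    Topology.IsOpenEmbedding.of_comp fB hval (emb_sub φ hemb 0 (1 / 2) 1 (by norm_num)
      (by norm_num))
  have hc1 : (1 / 4 : ℝ) ∈ Ioo (0 : ℝ) (1 / 2) := by constructor <;> norm_num
  have hc2 : (3 / 4 : ℝ) ∈ Ioo (1 / 2 : ℝ) 1 := by constructor <;> norm_num
  let kA : C(Z, ↥(range fA)) := ⟨fun z => ⟨fA (⟨1 / 4, hc1⟩, z), mem_range_self _⟩, by fun_prop⟩
  let kB : C(Z, ↥(range fB)) := ⟨fun z => ⟨fB (⟨3 / 4, hc2⟩, z), mem_range_self _⟩, by fun_prop⟩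
  have hkA : ∀ i, Function.Bijective (Hm i kA) := fun i =>
    slab_bij hF hc1 fA hfA.isEmbedding _ rfl kA (fun _ => rfl) i
  have hkB : ∀ i, Function.Bijective (Hm i kB) := fun i =>
    slab_bij hF hc2 fB hfB.isEmbedding _ rfl kB (fun _ => rfl) i
  have hcover : range fA ∪ range fB = univ := by
    rw [eq_univ_iff_forall]
    rintro ⟨x, hxU, hxV⟩
    have h1 := hxU
    rw [hU, arcS_eq φ g π hπ hper hsurj] at h1
    obtain ⟨⟨⟨θ, hθ⟩, z⟩, rfl⟩ := h1
    simp only [zero_add] at hθ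
    have h2 : θ ≠ 1 / 2 := by
      intro h
      have h3 := (mem_arcS φ π hπ _ θ z).1 hxV 1
      apply h3
      rw [h]
      norm_num
    rcases lt_or_gt_of_ne h2 with h3 | h3
    · exact Or.inl ⟨(⟨θ, hθ.1, h3⟩, z), rfl⟩
    · exact Or.inr ⟨(⟨θ, h3, hθ.2⟩, z), rfl⟩
  have hdisj : range fA ∩ range fB = ∅ := by
    rw [eq_empty_iff_forall_notMem]
    rintro y ⟨⟨⟨θ, z⟩, h1⟩, ⟨⟨θ', z'⟩, h2⟩⟩
    have h3 : φ (θ, z) = φ (θ', z') := by
      have := h1.trans h2.symm
      exact congrArg Subtype.val this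
    have h4 := congrArg π h3
    rw [hπ, hπ, exp_eq_iff] at h4
    obtain ⟨m, hm⟩ := h4
    have a1 := θ.2.1
    have a2 := θ.2.2
    have a3 := θ'.2.1
    have a4 := θ'.2.2
    have h5 : (m : ℝ) < 0 := by linarith
    have h6 : (-1 : ℝ) < m := by linarith
    have h7 : m < 0 := by exact_mod_cast h5
    have h8 : -1 < m := by exact_mod_cast h6
    omega
  let E : ∀ i, HH i Z × HH i Z ≃+ HH i ↥(U ∩ V) := fun i =>
    AddEquiv.ofBijective _ (disj_bij' hF h0 hMV (range fA) (range fB) hfA.isOpen_range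
      hfB.isOpen_range hcover hdisj i kA kB (hkA i) (hkB i))
  have hE : ∀ i a b, E i (a, b) = Hm i ((valC (range fA)).comp kA) a +
      Hm i ((valC (range fB)).comp kB) b := fun i a b => rfl
  -- the slices of `U` and `V`
  have bU : ∀ i, Function.Bijective (Hm i kU) := by
    intro i
    have hc : (1 / 2 : ℝ) ∈ Ioo (0 : ℝ) (0 + 1) := by constructor <;> norm_num
    exact slab_bij hF hc ⟨fun q => φ (q.1, q.2), by fun_prop⟩ (hemb 0).isEmbedding U
      (arcS_eq φ g π hπ hper hsurj 0).symm kU (fun _ => rfl) i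
  have bV : ∀ i, Function.Bijective (Hm i kV) := by
    intro i
    have hc : (0 : ℝ) ∈ Ioo (-(1 / 2) : ℝ) (-(1 / 2) + 1) := by constructor <;> norm_num
    exact slab_bij hF hc ⟨fun q => φ (q.1, q.2), by fun_prop⟩ (hemb _).isEmbedding V
      (arcS_eq φ g π hπ hper hsurj _).symm kV (fun _ => rfl) i
  -- homotopies
  have q1 : ((inclC (inter_subset_left (s := U) (t := V))).comp
      ((valC (range fA)).comp kA)).Homotopic kU := by
    refine homot φ (ContinuousMap.id Z) U (1 / 4) (1 / 2) ?_ _ _ (fun _ => rfl) (fun _ => rfl)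
    intro θ hθ w
    rw [uIcc_of_le (by norm_num)] at hθ
    exact memU _ _ (by linarith [hθ.1]) (by linarith [hθ.2])
  have q2 : ((inclC (inter_subset_left (s := U) (t := V))).comp
      ((valC (range fB)).comp kB)).Homotopic kU := by
    refine homot φ (ContinuousMap.id Z) U (3 / 4) (1 / 2) ?_ _ _ (fun _ => rfl) (fun _ => rfl)
    intro θ hθ w
    rw [uIcc_of_ge (by norm_num)] at hθ
    exact memU _ _ (by linarith [hθ.1]) (by linarith [hθ.2])
  have q3 : ((inclC (inter_subset_right (s := U) (t := V))).comp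
      ((valC (range fA)).comp kA)).Homotopic kV := by
    refine homot φ (ContinuousMap.id Z) V (1 / 4) 0 ?_ _ _ (fun _ => rfl) (fun _ => rfl)
    intro θ hθ w
    rw [uIcc_of_ge (by norm_num)] at hθ
    exact memV _ _ (by linarith [hθ.1]) (by linarith [hθ.2])
  have q4 : ((inclC (inter_subset_right (s := U) (t := V))).comp
      ((valC (range fB)).comp kB)).Homotopic (kV.comp (g.symm : C(Z, Z))) := by
    refine homot φ (g.symm : C(Z, Z)) V (-(1 / 4)) 0 ?_ _ _ ?_ (fun _ => rfl)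
    · intro θ hθ w
      rw [uIcc_of_le (by norm_num)] at hθ
      exact memV _ _ (by linarith [hθ.1]) (by linarith [hθ.2])
    · intro z
      change φ (3 / 4, z) = φ (-(1 / 4), g.symm z)
      rw [← hper (-(1 / 4)) (g.symm z), g.apply_symm_apply]
      norm_num
  have q5 : ((valC U).comp kU).Homotopic ι := by
    refine ⟨⟨⟨fun p => φ ((1 - (p.1 : ℝ)) * (1 / 2), p.2), by fun_prop⟩, ?_, ?_⟩⟩
    · intro z
      change φ ((1 - ((0 : I) : ℝ)) * (1 / 2), z) = φ (1 / 2, z)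
      simp
    · intro z
      change φ ((1 - ((1 : I) : ℝ)) * (1 / 2), z) = φ (0, z)
      simp
  have q6 : (valC V).comp kV = ι := rfl
  -- the algebra
  let G : ∀ i, HH i Z →+ HH i Z := fun i => Hm i (g : C(Z, Z))
  let G' : ∀ i, HH i Z →+ HH i Z := fun i => Hm i (g.symm : C(Z, Z))
  have hG : ∀ i a, G i (G' i a) = a := by
    intro i a
    change Hm i _ (Hm i _ a) = a
    rw [← hm_comp hF, show ((g : C(Z, Z)).comp (g.symm : C(Z, Z))) = ContinuousMap.id Z by
      ext z; simp, hm_id hF]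
  have hG' : ∀ i a, G' i (G i a) = a := by
    intro i a
    change Hm i _ (Hm i _ a) = a
    rw [← hm_comp hF, show ((g.symm : C(Z, Z)).comp (g : C(Z, Z))) = ContinuousMap.id Z by
      ext z; simp, hm_id hF]
  have hpair : ∀ i a b, mvPair U V i (E i (a, b)) =
      (Hm i kU (a + b), Hm i kV (a + G' i b)) := by
    intro i a b
    rw [hE, map_add]
    unfold mvPair
    simp only [AddMonoidHom.prod_apply]
    rw [← hm_comp hF, ← hm_comp hF, ← hm_comp hF, ← hm_comp hF,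
      hF.homotopy i _ _ _ _ q1, hF.homotopy i _ _ _ _ q2, hF.homotopy i _ _ _ _ q3,
      hF.homotopy i _ _ _ _ q4, hm_comp hF, Prod.mk_add_mk, ← map_add, ← map_add]
  have hdiff : ∀ i a b, mvDiff U V i (Hm i kU a, Hm i kV b) = Hm i ι (a - b) := by
    intro i a b
    unfold mvDiff
    simp only [AddMonoidHom.coprod_apply, AddMonoidHom.neg_apply]
    rw [← hm_comp hF, ← hm_comp hF, hF.homotopy i _ _ _ _ q5, q6, ← sub_eq_add_neg, ← map_sub]
  obtain ⟨δ, hδ, -⟩ := id hMV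
  obtain ⟨e1, e2, e3, e4⟩ := hδ X U V hUo hVo hUV
  refine ⟨fun i => (AddMonoidHom.fst _ _).comp ((E i).symm.toAddMonoidHom.comp (δ X U V i)),
    fun i => ?_, fun i => ?_, fun i => ?_, ?_⟩
  · exact alg1 (mvPair U V i) (mvDiff U V i) (e1 i) (E i).toAddMonoidHom (E i).bijective
      (Hm i kU) (bU i) (Hm i kV) (bV i) (G i) (G' i) (hG i) (hG' i) (Hm i ι) (hpair i) (hdiff i)
  · exact alg3 (mvPair U V i) (δ X U V i) (e3 i) (E i) (Hm i kU) (bU i) (Hm i kV) (G' i)
      (hpair i) (mvDiff U V (i + 1)) (e2 i) (Hm (i + 1) kU) (bU _) (Hm (i + 1) kV) (bV _)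
      (Hm (i + 1) ι) (hdiff _)
  · exact alg2 (mvPair U V i) (δ X U V i) (e3 i) (E i) (Hm i kU) (bU i) (Hm i kV) (bV i) (G i)
      (G' i) (hG i) (hG' i) (hpair i)
  · intro x
    obtain ⟨⟨a, b⟩, rfl⟩ := e4 x
    obtain ⟨a, rfl⟩ := (bU 0).2 a
    obtain ⟨b, rfl⟩ := (bV 0).2 b
    exact ⟨a - b, (hdiff 0 a b).symm⟩

end Pool.Agent.S1S3.H65
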